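import Pool.Agent.H246KN.Stubs

/-!
# Balance of free plaquettes and bumps: one cell
-/

set_option autoImplicit false

namespace KN

open Finset Filter Topology
open scoped Classical

noncomputable section

namespace KB

/-- free plaquettes minus `m` times the bumps -/
def dv (m : ℝ) (w : List Dir) : ℝ := (fr w : ℝ) - m * bu w

theorem fr_le {w : List Dir} : fr w ≤ 6 * w.length := by
  unfold fr sites
  refine (card_filter_le _ _).trans ?_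
  rw [card_product, card_range]
  have : (univ : Finset Dir).card = 6 := by decide
  rw [this]
  omega

theorem bu_le {w : List Dir} : bu w ≤ w.length := by
  unfold bu bumps
  refine (card_filter_le _ _).trans ?_
  rw [card_range]

/-- too many free plaquettes -/
theorem cell_up (hup : S_up) (Q : List Dir → Prop) (hQ : Inv Q) (μ ε : ℝ) (hμ : 0 < μ)
    (hμ5 : μ ≤ 5) (hε : 0 < ε) (n j F β : ℕ) (hn : 4 ≤ n)
    (hj : 306 * (j : ℝ) ≤ ε * n) (B : Finset (List Dir)) (hB : B ⊆ K Q n)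
    (hw : ∀ w ∈ B, fr w = F ∧ bu w = β) (hF6 : F ≤ 6 * n) (hF : μ ^ 2 * β + ε * n ≤ F) :
    (B.card : ℝ) * (μ ^ 2) ^ j ≤ (a Q (n + 2 * j) : ℝ) * (1 - ε / 50) ^ j := by
  have hn' : (4 : ℝ) ≤ n := by exact_mod_cast hn
  have hβ0 : (0 : ℝ) ≤ β := Nat.cast_nonneg _
  have hj0 : (0 : ℝ) ≤ j := Nat.cast_nonneg _
  have hF6' : (F : ℝ) ≤ 6 * n := by exact_mod_cast hF6
  have hμ2 : μ ^ 2 ≤ 25 := by nlinarith
  have hεn : 0 < ε * n := by positivity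
  have hF28 : 28 * (j : ℝ) ≤ F := by nlinarith [mul_nonneg (sq_nonneg μ) hβ0]
  have hF28' : 28 * j ≤ F := by exact_mod_cast hF28
  have h := hup Q hQ n β F j B hn hF28' hB (fun w h => ⟨(hw w h).1.ge, (hw w h).2.le⟩)
  set X : ℝ := (F : ℝ) - 28 * j with hX
  have hXpos : 0 < X := by
    have := mul_nonneg (sq_nonneg μ) hβ0
    rw [hX]; nlinarith
  have hkey : μ ^ 2 * ((β : ℝ) + 5 * j) ≤ (1 - ε / 50) * X := by
    have h1 : μ ^ 2 * (5 * (j : ℝ)) ≤ 125 * j := by nlinarith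
    have h2 : ε / 50 * X ≤ ε * n / 2 := by
      have : X ≤ 6 * n := by rw [hX]; linarith
      have : ε / 50 * X ≤ ε / 50 * (6 * n) := by gcongr
      nlinarith
    rw [hX] at h2 ⊢
    nlinarith
  have h3 : ((B.card : ℝ) * (μ ^ 2) ^ j) * X ^ j ≤
      ((a Q (n + 2 * j) : ℝ) * (1 - ε / 50) ^ j) * X ^ j := by
    calc ((B.card : ℝ) * (μ ^ 2) ^ j) * X ^ j = ((B.card : ℝ) * X ^ j) * (μ ^ 2) ^ j := by ring
      _ ≤ ((a Q (n + 2 * j) : ℝ) * ((β : ℝ) + 5 * j) ^ j) * (μ ^ 2) ^ j := by gcongr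
      _ = (a Q (n + 2 * j) : ℝ) * (μ ^ 2 * ((β : ℝ) + 5 * j)) ^ j := by rw [mul_pow]; ring
      _ ≤ (a Q (n + 2 * j) : ℝ) * ((1 - ε / 50) * X) ^ j := by gcongr
      _ = _ := by rw [mul_pow]; ring
  exact le_of_mul_le_mul_right h3 (pow_pos hXpos _)

/-- too many bumps -/
theorem cell_down (hdn : S_down) (Q : List Dir → Prop) (hQ : Inv Q) (μ ε : ℝ) (hμ : 0 < μ)
    (hμ5 : μ ≤ 5) (hε : 0 < ε) (n j F β : ℕ) (hn : 5 ≤ n)
    (hj : 306 * (j : ℝ) ≤ ε * n) (B : Finset (List Dir)) (hB : B ⊆ K Q n)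
    (hw : ∀ w ∈ B, fr w = F ∧ bu w = β) (hβn : β ≤ n) (hF : F + ε * n ≤ μ ^ 2 * β) :
    (B.card : ℝ) ≤ (a Q (n - 2 * j) : ℝ) * (μ ^ 2) ^ j * (1 - ε / 50) ^ j := by
  have hn' : (5 : ℝ) ≤ n := by exact_mod_cast hn
  have hβ0 : (0 : ℝ) ≤ β := Nat.cast_nonneg _
  have hF0 : (0 : ℝ) ≤ F := Nat.cast_nonneg _
  have hj0 : (0 : ℝ) ≤ j := Nat.cast_nonneg _
  have hβn' : (β : ℝ) ≤ n := by exact_mod_cast hβn
  have hμ2 : μ ^ 2 ≤ 25 := by nlinarith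
  have hεn : 0 < ε * n := by positivity
  have h25 : ε * n ≤ 25 * β := by nlinarith
  have hβ5 : 5 * (j : ℝ) ≤ β := by nlinarith
  have hβ5' : 5 * j ≤ β := by exact_mod_cast hβ5
  have hjn : 4 + 2 * j ≤ n := by
    have : (4 : ℝ) + 2 * j ≤ n := by nlinarith
    exact_mod_cast this
  have h := hdn Q hQ n β F j B hjn hβ5' hB (fun w h => ⟨(hw w h).2.ge, (hw w h).1.le⟩)
  set X : ℝ := (β : ℝ) - 5 * j with hX
  have hXpos : 0 < X := by
    rw [hX]; nlinarith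
  have hkey : (F : ℝ) + 28 * j ≤ (1 - ε / 50) * (μ ^ 2 * X) := by
    have h1 : μ ^ 2 * (5 * (j : ℝ)) ≤ 125 * j := by nlinarith
    have h2 : ε / 50 * (μ ^ 2 * X) ≤ ε * n / 2 := by
      have h4 : X ≤ n := by rw [hX]; linarith
      have h5 : μ ^ 2 * X ≤ 25 * n := by nlinarith
      have : ε / 50 * (μ ^ 2 * X) ≤ ε / 50 * (25 * n) := by gcongr
      nlinarith
    rw [hX] at h2 ⊢
    nlinarith
  have h3 : (B.card : ℝ) * X ^ j ≤
      ((a Q (n - 2 * j) : ℝ) * (μ ^ 2) ^ j * (1 - ε / 50) ^ j) * X ^ j := by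
    calc (B.card : ℝ) * X ^ j ≤ (a Q (n - 2 * j) : ℝ) * ((F : ℝ) + 28 * j) ^ j := h
      _ ≤ (a Q (n - 2 * j) : ℝ) * ((1 - ε / 50) * (μ ^ 2 * X)) ^ j := by gcongr
      _ = _ := by rw [mul_pow, mul_pow]; ring
  exact le_of_mul_le_mul_right h3 (pow_pos hXpos _)

end KB

end

end KN
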