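import Pool.Agent.R423.KB.Main

/-!
# Gaussian tails for the balance of free plaquettes and bumps
-/

set_option autoImplicit false

namespace KN

open Finset Filter Topology
open scoped Classical

noncomputable section

namespace KB

/-- a cutoff: `1` up to `n`, `0` from `2 n` on -/
def cl (n k : ℕ) : ℝ := min 1 (max 0 ((2 * n - k : ℝ) / n))

/-- the quotients of the weights -/
def rr (μ : ℝ) (n k : ℕ) : ℝ := cl n k / μ ^ 2

/-- the weights -/
def om (μ : ℝ) (n : ℕ) : ℕ → ℝ
  | 0 => 1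
  | 1 => μ⁻¹
  | (k + 2) => rr μ n k * om μ n k

theorem cl_nonneg (n k : ℕ) : 0 ≤ cl n k := le_min (by norm_num) (le_max_left _ _)

theorem cl_le_one (n k : ℕ) : cl n k ≤ 1 := min_le_left _ _

theorem cl_one {n k : ℕ} (hn : 0 < n) (h : k ≤ n) : cl n k = 1 := by
  unfold cl
  apply min_eq_left
  apply le_max_of_le_right
  have h1 : (0 : ℝ) < n := by exact_mod_cast hn
  have h2 : (k : ℝ) ≤ n := by exact_mod_cast h
  rw [le_div_iff₀ h1]
  linarith

theorem cl_zero {n k : ℕ} (h : 2 * n ≤ k) : cl n k = 0 := by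
  unfold cl
  have h2 : 2 * (n : ℝ) ≤ k := by exact_mod_cast h
  rw [max_eq_left, min_eq_right (by norm_num)]
  exact div_nonpos_of_nonpos_of_nonneg (by linarith) (Nat.cast_nonneg _)

theorem cl_diff {n k : ℕ} (hn : 0 < n) : |cl n (k + 2) - cl n k| ≤ 2 / n := by
  have h1 : (0 : ℝ) < n := by exact_mod_cast hn
  unfold cl
  have h2 : (2 * (n : ℝ) - k) / n = (2 * (n : ℝ) - ((k + 2 : ℕ) : ℝ)) / n + 2 / n := by
    push_cast
    field_simp
    ring
  have h3 : (0 : ℝ) < 2 / n := by positivity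
  rw [h2]
  set y := (2 * (n : ℝ) - ((k + 2 : ℕ) : ℝ)) / n
  set e := (2 : ℝ) / n
  rw [abs_le]
  rcases le_total 0 y with h4 | h4 <;> rcases le_total 0 (y + e) with h5 | h5 <;>
    rcases le_total 1 y with h6 | h6 <;> rcases le_total 1 (y + e) with h7 | h7 <;>
    simp only [max_eq_right, max_eq_left, min_eq_left, min_eq_right, h4, h5, h6, h7, zero_le_one] <;>
    constructor <;> linarith

section
variable {μ : ℝ} (hμ : 1 ≤ μ)

include hμ

theorem mu_sq : 1 ≤ μ ^ 2 := one_le_pow₀ hμ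

theorem rr_nonneg (n k : ℕ) : 0 ≤ rr μ n k := div_nonneg (cl_nonneg _ _) (by positivity)

theorem rr_le_one (n k : ℕ) : rr μ n k ≤ 1 := by
  unfold rr
  have := mu_sq hμ
  rw [div_le_one (by linarith)]
  exact (cl_le_one n k).trans this

theorem rr_diff {n k : ℕ} (hn : 0 < n) : |rr μ n (k + 2) - rr μ n k| ≤ 2 / n := by
  unfold rr
  have h := mu_sq hμ
  rw [← sub_div, abs_div, abs_of_pos (show 0 < μ ^ 2 by linarith)]
  have h1 : (0 : ℝ) < n := by exact_mod_cast hn
  have h2 : (0 : ℝ) ≤ 2 / n := by positivity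
  calc |cl n (k + 2) - cl n k| / μ ^ 2 ≤ |cl n (k + 2) - cl n k| / 1 := by gcongr
    _ = |cl n (k + 2) - cl n k| := div_one _
    _ ≤ 2 / n := cl_diff hn

theorem om_nonneg (n : ℕ) : ∀ k, 0 ≤ om μ n k
  | 0 => by simp [om]
  | 1 => by simp only [om]; positivity
  | (k + 2) => by
      rw [om]
      exact mul_nonneg (rr_nonneg hμ _ _) (om_nonneg n k)

theorem om_le (n : ℕ) : ∀ k, om μ n k ≤ (μ⁻¹) ^ k
  | 0 => by simp [om]
  | 1 => by simp [om]
  | (k + 2) => by
      rw [om, pow_add, mul_comm]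
      have h1 : rr μ n k ≤ (μ⁻¹) ^ 2 := by
        unfold rr
        rw [inv_pow, ← one_div]
        have := mu_sq hμ
        gcongr
        exact cl_le_one _ _
      exact mul_le_mul (om_le n k) h1 (rr_nonneg hμ _ _) (by positivity)

omit hμ in
theorem om_eq {n : ℕ} : ∀ k, k ≤ n → om μ n k = (μ⁻¹) ^ k
  | 0 => by simp [om]
  | 1 => by simp [om]
  | (k + 2) => fun h => by
      rw [om, om_eq k (by omega), rr, cl_one (by omega) (by omega), pow_add, inv_pow μ 2, ← one_div]
      ring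

omit hμ in
theorem om_zero {n k : ℕ} (h : 2 * n ≤ k) : om μ n (k + 2) = 0 := by
  rw [om, rr, cl_zero h]
  simp

end

/-- the number of bumps, without the bumps of the squares -/
def bp (w : List Dir) : ℝ := if 6 ≤ w.length then (bu w : ℝ) else 0

/-- the deviation -/
def X (μ : ℝ) (n : ℕ) (s : ℝ) (w : List Dir) : ℝ := s * (bp w - rr μ n w.length * fr w)

theorem X_diff {μ : ℝ} (hμ : 1 ≤ μ) {n : ℕ} (hn : 0 < n) {s : ℝ} (hs : |s| = 1) {w : List Dir}
    (hw : SAP w) (hk : w.length ≤ 2 * n) {i : ℕ} {d : Dir} (hi : site w i d) :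
    |X μ n s (ins w i d) - X μ n s w| ≤ 64 := by
  have h1 := S_change_proof w i d hw hi
  have h2 := (S_ins_proof w i d hw hi).2.1
  have h3 := @fr_le w
  have h4 := @bu_le w
  have hw4 := hw.1
  set f : ℝ := (fr w : ℝ) with hf
  set f' : ℝ := (fr (ins w i d) : ℝ) with hf'
  set r : ℝ := rr μ n w.length with hr
  set r' : ℝ := rr μ n (w.length + 2) with hr'
  have hr0 : 0 ≤ r' := rr_nonneg hμ _ _
  have hr1 : r' ≤ 1 := rr_le_one hμ _ _
  have hrd : |r' - r| ≤ 2 / n := rr_diff hμ hn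
  have hn' : (0 : ℝ) < n := by exact_mod_cast hn
  have hf0 : 0 ≤ f := Nat.cast_nonneg _
  have hfn : f ≤ 12 * n := by
    have : fr w ≤ 12 * n := by omega
    rw [hf]; exact_mod_cast this
  have c1 : f ≤ f' + 28 := by rw [hf, hf']; exact_mod_cast h1.1
  have c2 : f' ≤ f + 12 := by rw [hf, hf']; exact_mod_cast h1.2.1
  have e1 : |r' * f' - r * f| ≤ 52 := by
    have : r' * f' - r * f = r' * (f' - f) + (r' - r) * f := by ring
    rw [this]
    have e2 : |f' - f| ≤ 28 := by rw [abs_le]; constructor <;> linarith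
    calc |r' * (f' - f) + (r' - r) * f| ≤ |r' * (f' - f)| + |(r' - r) * f| := abs_add_le _ _
      _ = r' * |f' - f| + |r' - r| * f := by
          rw [abs_mul, abs_mul, abs_of_nonneg hr0, abs_of_nonneg hf0]
      _ ≤ 1 * 28 + 2 / n * (12 * n) := by gcongr
      _ = 52 := by field_simp; norm_num
  have e3 : |bp (ins w i d) - bp w| ≤ 10 := by
    have hb1 : (bu (ins w i d) : ℝ) ≤ bu w + 5 := by exact_mod_cast h1.2.2.1
    have hb2 : (bu w : ℝ) ≤ bu (ins w i d) + 3 := by exact_mod_cast h1.2.2.2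
    have hb3 : (0 : ℝ) ≤ bu (ins w i d) := Nat.cast_nonneg _
    have hb4 : (bu w : ℝ) ≤ w.length := by exact_mod_cast h4
    unfold bp
    rw [h2, if_pos (by omega)]
    split_ifs with h6
    · rw [abs_le]; constructor <;> linarith
    · have h7 : w.length ≤ 5 := by omega
      have h7' : (w.length : ℝ) ≤ 5 := by exact_mod_cast h7
      rw [abs_le]; constructor <;> linarith
  unfold X
  rw [h2, ← mul_sub, abs_mul, hs, one_mul]
  have e4 : bp (ins w i d) - r' * f' - (bp w - r * f) =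
      (bp (ins w i d) - bp w) - (r' * f' - r * f) := by ring
  rw [e4]
  calc |(bp (ins w i d) - bp w) - (r' * f' - r * f)| ≤
      |bp (ins w i d) - bp w| + |r' * f' - r * f| := abs_sub _ _
    _ ≤ 64 := by linarith

theorem exp_diff (x y : ℝ) :
    |Real.exp x - Real.exp y| ≤ |x - y| * (Real.exp x + Real.exp y) := by
  have key : ∀ a b : ℝ, a ≤ b → Real.exp b - Real.exp a ≤ (b - a) * (Real.exp b + Real.exp a) := by
    intro a b hab
    have h1 := Real.add_one_le_exp (a - b)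
    have h2 : Real.exp a = Real.exp b * Real.exp (a - b) := by
      rw [← Real.exp_add]; congr 1; ring
    have h3 := Real.exp_pos b
    have h4 := Real.exp_pos a
    have h5 : Real.exp b * (a - b + 1) ≤ Real.exp a := by rw [h2]; gcongr
    nlinarith
  rcases le_total x y with h | h
  · rw [abs_sub_comm, abs_of_nonneg (sub_nonneg.2 (Real.exp_le_exp.2 h)), abs_sub_comm,
      abs_of_nonneg (sub_nonneg.2 h), add_comm (Real.exp x)]
    exact key x y h
  · rw [abs_of_nonneg (sub_nonneg.2 (Real.exp_le_exp.2 h)), abs_of_nonneg (sub_nonneg.2 h)]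
    exact key y x h

section
variable (Q : List Dir → Prop) (μ : ℝ) (n : ℕ)

/-- weighted sum with the bumps -/
def SA (g : List Dir → ℝ) : ℝ :=
  ∑ k ∈ range (2 * n + 2), om μ n k * ∑ w ∈ K Q k, bp w * g w

/-- weighted sum with the free plaquettes -/
def SF (g : List Dir → ℝ) : ℝ :=
  ∑ k ∈ range (2 * n + 2), om μ n k * ∑ w ∈ K Q k, rr μ n k * fr w * g w

theorem K_small {k : ℕ} (h : k < 4) : K Q k = ∅ := by
  rw [eq_empty_iff_forall_notMem]
  intro w hw
  have h1 := mem_K.1 hw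
  have h2 := h1.2.1.1
  omega

theorem SF_eq (g : List Dir → ℝ) : SF Q μ n g =
    ∑ k ∈ range (2 * n + 2), om μ n (k + 2) * ∑ w ∈ K Q k, ∑ _q ∈ sites w, g w := by
  unfold SF
  apply sum_congr rfl
  intro k _
  rw [om, mul_sum, mul_sum]
  apply sum_congr rfl
  intro w _
  rw [sum_const, nsmul_eq_mul]
  unfold fr
  ring

theorem SA_eq (hQ : Inv Q) (g : List Dir → ℝ) : SA Q μ n g =
    ∑ k ∈ range (2 * n + 2), om μ n (k + 2) *
      ∑ w ∈ K Q k, ∑ q ∈ sites w, g (ins w q.1 q.2) := by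
  have key : ∀ k, om μ n (k + 2) * ∑ w ∈ K Q (k + 2), bp w * g w =
      om μ n (k + 2) * ∑ w ∈ K Q k, ∑ q ∈ sites w, g (ins w q.1 q.2) := by
    intro k
    congr 1
    by_cases hk : k < 4
    · rw [K_small Q hk, sum_empty]
      apply sum_eq_zero
      intro w hw
      have h1 := (mem_K.1 hw).1
      unfold bp
      rw [if_neg (by omega), zero_mul]
    · rw [c_sum Q hQ k (by omega) (fun _ w => g w)]
      apply sum_congr rfl
      intro w hw
      have h1 := (mem_K.1 hw).1
      rw [sum_const, nsmul_eq_mul]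
      unfold bp bu
      rw [if_pos (by omega)]
  unfold SA
  rw [sum_range_succ', sum_range_succ', sum_range_succ, sum_range_succ]
  rw [om_zero (show 2 * n ≤ 2 * n by omega), om_zero (show 2 * n ≤ 2 * n + 1 by omega)]
  rw [K_small Q (show 0 + 1 < 4 by norm_num), K_small Q (show 0 < 4 by norm_num)]
  simp only [sum_empty, mul_zero, zero_mul, add_zero]
  apply sum_congr rfl
  intro k _
  exact key k

/-- the moment generating function -/
def M (s θ : ℝ) : ℝ :=
  ∑ k ∈ range (2 * n + 2), om μ n k * ∑ w ∈ K Q k, Real.exp (θ * X μ n s w)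

theorem M_deriv (s θ : ℝ) : HasDerivAt (M Q μ n s)
    (s * (SA Q μ n (fun w => Real.exp (θ * X μ n s w)) -
      SF Q μ n (fun w => Real.exp (θ * X μ n s w)))) θ := by
  have h1 : s * (SA Q μ n (fun w => Real.exp (θ * X μ n s w)) -
      SF Q μ n (fun w => Real.exp (θ * X μ n s w))) =
      ∑ k ∈ range (2 * n + 2), om μ n k * ∑ w ∈ K Q k,
        Real.exp (θ * X μ n s w) * X μ n s w := by
    unfold SA SF
    rw [← sum_sub_distrib, mul_sum]
    apply sum_congr rfl
    intro k _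
    rw [← mul_sub, ← sum_sub_distrib, ← mul_assoc, mul_comm s, mul_assoc, mul_sum]
    congr 1
    apply sum_congr rfl
    intro w hw
    have h1 := (mem_K.1 hw).1
    have h2 : X μ n s w = s * (bp w - rr μ n k * fr w) := by
      unfold X
      rw [h1]
    have h3 : ∀ e : ℝ, s * (bp w * e - rr μ n k * fr w * e) =
        e * (s * (bp w - rr μ n k * fr w)) := fun e => by ring
    rw [← h2] at h3
    exact h3 _
  rw [h1]
  unfold M
  apply HasDerivAt.fun_sum
  intro k _
  apply HasDerivAt.const_mul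
  apply HasDerivAt.fun_sum
  intro w _
  have h2 : HasDerivAt (fun x : ℝ => x * X μ n s w) (X μ n s w) θ := by
    simpa using (hasDerivAt_id θ).mul_const (X μ n s w)
  exact h2.exp

variable {Q μ n}

theorem M_bound (hQ : Inv Q) (hμ : 1 ≤ μ) (hn : 0 < n) {s : ℝ} (hs : |s| = 1) {θ : ℝ}
    (hθ : 0 ≤ θ) :
    s * (SA Q μ n (fun w => Real.exp (θ * X μ n s w)) -
      SF Q μ n (fun w => Real.exp (θ * X μ n s w))) ≤
      448 * (2 * n + 1) * θ * M Q μ n s θ := by
  set g : List Dir → ℝ := fun w => Real.exp (θ * X μ n s w) with hg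
  have hg0 : ∀ w, 0 ≤ g w := fun w => (Real.exp_pos _).le
  have h1 : |SA Q μ n g - SF Q μ n g| ≤ 64 * θ * (SA Q μ n g + SF Q μ n g) := by
    rw [SA_eq Q μ n hQ, SF_eq, ← sum_sub_distrib, ← sum_add_distrib, mul_sum]
    refine (abs_sum_le_sum_abs _ _).trans (sum_le_sum ?_)
    intro k _
    rw [← mul_sub, ← mul_add, abs_mul, abs_of_nonneg (om_nonneg hμ n (k + 2))]
    by_cases hk : 2 * n ≤ k
    · rw [om_zero hk]; simp
    have h2 : |∑ w ∈ K Q k, ∑ q ∈ sites w, g (ins w q.1 q.2) - ∑ w ∈ K Q k, ∑ _q ∈ sites w, g w| ≤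
        64 * θ * (∑ w ∈ K Q k, ∑ q ∈ sites w, g (ins w q.1 q.2) +
          ∑ w ∈ K Q k, ∑ _q ∈ sites w, g w) := by
      rw [← sum_sub_distrib, ← sum_add_distrib, mul_sum]
      refine (abs_sum_le_sum_abs _ _).trans (sum_le_sum ?_)
      intro w hw
      rw [← sum_sub_distrib, ← sum_add_distrib, mul_sum]
      refine (abs_sum_le_sum_abs _ _).trans (sum_le_sum ?_)
      rintro ⟨i, d⟩ hq
      have h3 := mem_K.1 hw
      have h4 := X_diff hμ hn hs h3.2.1 (by omega) (mem_sites.1 hq)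
      have h5 := exp_diff (θ * X μ n s (ins w i d)) (θ * X μ n s w)
      rw [← mul_sub, abs_mul, abs_of_nonneg hθ] at h5
      simp only [hg]
      refine h5.trans ?_
      have h6 : 0 < Real.exp (θ * X μ n s (ins w i d)) + Real.exp (θ * X μ n s w) := by
        positivity
      have h7 : θ * |X μ n s (ins w i d) - X μ n s w| ≤ 64 * θ := by
        nlinarith
      gcongr
    calc om μ n (k + 2) * |∑ w ∈ K Q k, ∑ q ∈ sites w, g (ins w q.1 q.2) -
        ∑ w ∈ K Q k, ∑ _q ∈ sites w, g w| ≤ om μ n (k + 2) *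
        (64 * θ * (∑ w ∈ K Q k, ∑ q ∈ sites w, g (ins w q.1 q.2) +
          ∑ w ∈ K Q k, ∑ _q ∈ sites w, g w)) :=
          mul_le_mul_of_nonneg_left h2 (om_nonneg hμ n (k + 2))
      _ = _ := by ring
  have h8 : SA Q μ n g + SF Q μ n g ≤ 7 * (2 * n + 1) * M Q μ n s θ := by
    unfold SA SF M
    rw [← sum_add_distrib, mul_sum]
    apply sum_le_sum
    intro k hk
    rw [mem_range] at hk
    rw [← mul_add, ← sum_add_distrib, mul_left_comm]
    apply mul_le_mul_of_nonneg_left _ (om_nonneg hμ n k)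
    rw [mul_sum]
    apply sum_le_sum
    intro w hw
    have h3 := (mem_K.1 hw).1
    have hk' : (k : ℝ) ≤ 2 * n + 1 := by
      have : k ≤ 2 * n + 1 := by omega
      exact_mod_cast this
    have h4 : bp w ≤ k := by
      unfold bp
      split_ifs
      · have := @bu_le w
        rw [h3] at this
        exact_mod_cast this
      · exact Nat.cast_nonneg _
    have h5 : rr μ n k * fr w ≤ 6 * k := by
      have h6 : (fr w : ℝ) ≤ 6 * k := by
        have := @fr_le w
        rw [h3] at this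
        exact_mod_cast this
      calc rr μ n k * fr w ≤ 1 * fr w := by
            have := rr_le_one hμ n k
            gcongr
        _ = fr w := one_mul _
        _ ≤ _ := h6
    have h9 : bp w * g w + rr μ n k * fr w * g w = (bp w + rr μ n k * fr w) * g w := by ring
    rw [h9]
    have h10 : bp w + rr μ n k * fr w ≤ 7 * (2 * n + 1) := by linarith
    exact mul_le_mul_of_nonneg_right h10 (hg0 w)
  calc s * (SA Q μ n g - SF Q μ n g) ≤ |s * (SA Q μ n g - SF Q μ n g)| := le_abs_self _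
    _ = |SA Q μ n g - SF Q μ n g| := by rw [abs_mul, hs, one_mul]
    _ ≤ 64 * θ * (SA Q μ n g + SF Q μ n g) := h1
    _ ≤ 64 * θ * (7 * (2 * n + 1) * M Q μ n s θ) := by gcongr
    _ = _ := by ring

theorem M_le (hQ : Inv Q) (hμ : 1 ≤ μ) (hn : 0 < n) {s : ℝ} (hs : |s| = 1) {θ : ℝ}
    (hθ : 0 ≤ θ) :
    M Q μ n s θ ≤ M Q μ n s 0 * Real.exp (448 * (2 * n + 1) * θ ^ 2 / 2) := by
  set B : ℝ := 448 * (2 * n + 1) with hB
  have hd : ∀ x : ℝ, HasDerivAt (fun x => M Q μ n s x * Real.exp (-(B * x ^ 2 / 2)))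
      (s * (SA Q μ n (fun w => Real.exp (x * X μ n s w)) -
      SF Q μ n (fun w => Real.exp (x * X μ n s w))) * Real.exp (-(B * x ^ 2 / 2)) +
      M Q μ n s x * (Real.exp (-(B * x ^ 2 / 2)) * (-(B * x)))) x := by
    intro x
    apply (M_deriv Q μ n s x).mul
    apply HasDerivAt.exp
    have h1 : HasDerivAt (fun x : ℝ => B * x ^ 2 / 2) (B * (2 * x) / 2) x := by
      have := ((hasDerivAt_pow 2 x).const_mul B).div_const 2
      simpa using this
    have h2 := h1.neg
    have h3 : -(B * (2 * x) / 2) = -(B * x) := by ring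
    rw [h3] at h2
    exact h2
  have hanti : AntitoneOn (fun x => M Q μ n s x * Real.exp (-(B * x ^ 2 / 2))) (Set.Ici 0) := by
    apply antitoneOn_of_deriv_nonpos (convex_Ici 0)
    · exact fun x _ => (hd x).continuousAt.continuousWithinAt
    · exact fun x _ => (hd x).differentiableAt.differentiableWithinAt
    · intro x hx
      rw [interior_Ici, Set.mem_Ioi] at hx
      rw [(hd x).deriv]
      have h1 := M_bound hQ hμ hn hs hx.le
      rw [← hB] at h1
      have h2 := Real.exp_pos (-(B * x ^ 2 / 2))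
      nlinarith
  have h1 := hanti (Set.mem_Ici.2 le_rfl) (Set.mem_Ici.2 hθ) hθ
  simp only at h1
  rw [Real.exp_neg] at h1
  have h2 := Real.exp_pos (B * θ ^ 2 / 2)
  have h3 : Real.exp (-(B * 0 ^ 2 / 2)) = 1 := by simp
  rw [h3, mul_one] at h1
  rwa [← div_eq_mul_inv, div_le_iff₀ h2] at h1

theorem one_side (hQ : Inv Q) (hμ : 1 ≤ μ) (hn : 6 ≤ n) {s : ℝ} (hs : |s| = 1) {t : ℝ}
    (ht : 0 ≤ t) :
    (((K Q n).filter (fun w => t ≤ s * ((bu w : ℝ) - fr w / μ ^ 2))).card : ℝ) ≤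
      μ ^ n * (∑ k ∈ range (2 * n + 2), (μ⁻¹) ^ k * a Q k) *
        Real.exp (-(t ^ 2 / (896 * (2 * n + 1)))) := by
  have hμ0 : 0 < μ := by linarith
  set B : ℝ := 448 * (2 * n + 1) with hB
  have hB0 : 0 < B := by positivity
  set θ : ℝ := t / B with hθ
  have hθ0 : 0 ≤ θ := by positivity
  set S := (K Q n).filter (fun w => t ≤ s * ((bu w : ℝ) - fr w / μ ^ 2)) with hS
  have h0 : M Q μ n s 0 ≤ ∑ k ∈ range (2 * n + 2), (μ⁻¹) ^ k * a Q k := by
    unfold M
    apply sum_le_sum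
    intro k _
    have h1 : ∑ w ∈ K Q k, Real.exp (0 * X μ n s w) = a Q k := by
      simp [a]
    rw [h1]
    exact mul_le_mul_of_nonneg_right (om_le hμ n k) (Nat.cast_nonneg _)
  have h1 : (S.card : ℝ) * ((μ⁻¹) ^ n * Real.exp (θ * t)) ≤ M Q μ n s θ := by
    have h2 : ∑ w ∈ K Q n, Real.exp (θ * X μ n s w) ≥ S.card * Real.exp (θ * t) := by
      calc (S.card : ℝ) * Real.exp (θ * t) = ∑ w ∈ S, Real.exp (θ * t) := by
            rw [sum_const, nsmul_eq_mul]
        _ ≤ ∑ w ∈ S, Real.exp (θ * X μ n s w) := by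
            apply sum_le_sum
            intro w hw
            rw [hS, mem_filter] at hw
            apply Real.exp_le_exp.2
            apply mul_le_mul_of_nonneg_left _ hθ0
            refine hw.2.trans (le_of_eq ?_)
            have h3 := (mem_K.1 hw.1).1
            unfold X bp rr
            rw [h3, if_pos hn, cl_one (by omega) le_rfl]
            ring
        _ ≤ ∑ w ∈ K Q n, Real.exp (θ * X μ n s w) :=
            sum_le_sum_of_subset_of_nonneg (filter_subset _ _)
              (fun w _ _ => (Real.exp_pos _).le)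
    have h3 : om μ n n * ∑ w ∈ K Q n, Real.exp (θ * X μ n s w) ≤ M Q μ n s θ := by
      unfold M
      apply single_le_sum (f := fun k => om μ n k * ∑ w ∈ K Q k, Real.exp (θ * X μ n s w))
      · intro k _
        exact mul_nonneg (om_nonneg hμ n k) (sum_nonneg (fun w _ => (Real.exp_pos _).le))
      · rw [mem_range]; omega
    rw [om_eq n le_rfl] at h3
    refine le_trans ?_ h3
    calc (S.card : ℝ) * ((μ⁻¹) ^ n * Real.exp (θ * t)) =
        (μ⁻¹) ^ n * (S.card * Real.exp (θ * t)) := by ring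
      _ ≤ _ := by gcongr
  have h4 := h1.trans (M_le hQ hμ (by omega) hs hθ0)
  rw [← hB] at h4
  have h5 : (S.card : ℝ) = (S.card : ℝ) * ((μ⁻¹) ^ n * Real.exp (θ * t)) *
      (μ ^ n * Real.exp (-(θ * t))) := by
    have h6 : (μ⁻¹) ^ n * μ ^ n = 1 := by
      rw [← mul_pow, inv_mul_cancel₀ (by positivity), one_pow]
    have h7 : Real.exp (θ * t) * Real.exp (-(θ * t)) = 1 := by
      rw [← Real.exp_add]; simp
    calc (S.card : ℝ) = S.card * (((μ⁻¹) ^ n * μ ^ n) *
        (Real.exp (θ * t) * Real.exp (-(θ * t)))) := by rw [h6, h7]; ring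
      _ = _ := by ring
  rw [h5]
  calc (S.card : ℝ) * ((μ⁻¹) ^ n * Real.exp (θ * t)) * (μ ^ n * Real.exp (-(θ * t))) ≤
      (M Q μ n s 0 * Real.exp (B * θ ^ 2 / 2)) * (μ ^ n * Real.exp (-(θ * t))) := by
        gcongr
    _ ≤ ((∑ k ∈ range (2 * n + 2), (μ⁻¹) ^ k * a Q k) * Real.exp (B * θ ^ 2 / 2)) *
        (μ ^ n * Real.exp (-(θ * t))) := by gcongr
    _ = μ ^ n * (∑ k ∈ range (2 * n + 2), (μ⁻¹) ^ k * a Q k) *
        (Real.exp (B * θ ^ 2 / 2) * Real.exp (-(θ * t))) := by ring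
    _ = _ := by
        rw [← Real.exp_add]
        congr 2
        have h8 : (896 : ℝ) * (2 * n + 1) = 2 * B := by rw [hB]; ring
        rw [h8, hθ]
        field_simp
        ring

theorem two_sides (hQ : Inv Q) (hμ : 1 ≤ μ) (hn : 6 ≤ n) {t : ℝ} (ht : 0 ≤ t) :
    (((K Q n).filter (fun w => t ≤ |(bu w : ℝ) - fr w / μ ^ 2|)).card : ℝ) ≤
      2 * μ ^ n * (∑ k ∈ range (2 * n + 2), (μ⁻¹) ^ k * a Q k) *
        Real.exp (-(t ^ 2 / (896 * (2 * n + 1)))) := by
  have h1 := one_side (s := 1) hQ hμ hn (by simp) ht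
  have h2 := one_side (s := -1) hQ hμ hn (by simp) ht
  have hsub : (K Q n).filter (fun w => t ≤ |(bu w : ℝ) - fr w / μ ^ 2|) ⊆
      (K Q n).filter (fun w => t ≤ 1 * ((bu w : ℝ) - fr w / μ ^ 2)) ∪
      (K Q n).filter (fun w => t ≤ -1 * ((bu w : ℝ) - fr w / μ ^ 2)) := by
    intro w hw
    rw [mem_filter] at hw
    rw [mem_union, mem_filter, mem_filter]
    rcases le_abs.1 hw.2 with h | h
    · exact Or.inl ⟨hw.1, by linarith⟩
    · exact Or.inr ⟨hw.1, by linarith⟩
  have h3 : (((K Q n).filter (fun w => t ≤ |(bu w : ℝ) - fr w / μ ^ 2|)).card : ℝ) ≤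
      (((K Q n).filter (fun w => t ≤ 1 * ((bu w : ℝ) - fr w / μ ^ 2))).card : ℝ) +
      (((K Q n).filter (fun w => t ≤ -1 * ((bu w : ℝ) - fr w / μ ^ 2))).card : ℝ) := by
    exact_mod_cast (card_le_card hsub).trans (card_union_le _ _)
  linarith

end

end KB

end

end KN
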