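import Pool.Agent.R423.KB.Gauss

/-!
# Gaussian tails for the balance of free plaquettes and bumps: classes of knot types
-/

set_option autoImplicit false

namespace KN

open Finset Filter Topology
open scoped Classical

noncomputable section

namespace KB

variable {Q : List Dir → Prop}

theorem a_le (hQ : KClass Q) (hne : ∃ w, SAP w ∧ Q w) (hc : CSum Q) (n : ℕ) (hn : 0 < n) :
    (a Q n : ℝ) ≤ 16 * n * gr Q ^ n := by
  obtain ⟨h1, -, h2⟩ := gr_bounds Q hQ hne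
  have hg : 0 < gr Q := by linarith
  have hn1 : (1 : ℝ) ≤ n := by exact_mod_cast hn
  by_contra hlt
  push Not at hlt
  obtain ⟨τ, hτ, hτ1⟩ : ∃ τ : ℝ, 0 < τ ∧ 16 * n * ((1 + τ) * gr Q) ^ n < a Q n := by
    have hcont : Tendsto (fun τ : ℝ => 16 * n * ((1 + τ) * gr Q) ^ n) (𝓝[>] 0)
        (𝓝 (16 * n * ((1 + 0) * gr Q) ^ n)) := by
      apply Tendsto.mono_left _ nhdsWithin_le_nhds
      exact (((tendsto_const_nhds.add tendsto_id).mul_const _).pow n).const_mul _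
    have h2 : 16 * n * ((1 + 0) * gr Q) ^ n < (a Q n : ℝ) := by simpa using hlt
    have h3 := (hcont.eventually_lt_const h2).and self_mem_nhdsWithin
    obtain ⟨τ, h4, h5⟩ := h3.exists
    exact ⟨τ, h5, h4⟩
  obtain ⟨C, hC⟩ := GEN.upper S_five_proof Q hg τ hτ
  set b : ℝ := 16 * n * ((1 + τ) * gr Q) ^ n with hb
  have hb0 : 0 < b := by positivity
  have hpow : ∀ j : ℕ, (a Q n : ℝ) ^ (j + 1) ≤ (16 * n) ^ j * a Q ((j + 1) * n) := by
    intro j
    induction j with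
    | zero => simp
    | succ j ih =>
      have h3 := GEN.super Q hQ hc ((j + 1) * n) n
      have h4 : (a Q ((j + 1) * n) : ℝ) * a Q n ≤ 16 * n * a Q ((j + 1) * n + n) := by
        exact_mod_cast h3
      have h5 : (j + 1 + 1) * n = (j + 1) * n + n := by ring
      rw [h5, pow_succ]
      calc (a Q n : ℝ) ^ (j + 1) * a Q n ≤ ((16 * n) ^ j * a Q ((j + 1) * n)) * a Q n := by
            gcongr
        _ = (16 * n) ^ j * (a Q ((j + 1) * n) * a Q n) := by ring
        _ ≤ (16 * n) ^ j * (16 * n * a Q ((j + 1) * n + n)) := by gcongr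
        _ = _ := by ring
  have hx : 1 < (a Q n : ℝ) / b := by rwa [one_lt_div hb0]
  obtain ⟨m, hm⟩ := pow_unbounded_of_one_lt C hx
  have h6 : ((a Q n : ℝ) / b) ^ (m + 1) ≤ C := by
    rw [div_pow, div_le_iff₀ (by positivity)]
    calc (a Q n : ℝ) ^ (m + 1) ≤ (16 * n) ^ m * a Q ((m + 1) * n) := hpow m
      _ ≤ (16 * n) ^ (m + 1) * (C * ((1 + τ) * gr Q) ^ ((m + 1) * n)) := by
          gcongr
          · linarith
          · omega
          · exact hC _
      _ = C * b ^ (m + 1) := by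
          rw [hb, mul_pow, mul_comm (m + 1) n, pow_mul]
          ring
  have h7 : ((a Q n : ℝ) / b) ^ m ≤ ((a Q n : ℝ) / b) ^ (m + 1) :=
    pow_le_pow_right₀ hx.le (by omega)
  linarith

/-- Gaussian tails for classes closed under connected sums -/
theorem csum_gauss (hQ : KClass Q) (hne : ∃ w, SAP w ∧ Q w) (hc : CSum Q) {n : ℕ} (hn : 6 ≤ n)
    {t : ℝ} (ht : 0 ≤ t) :
    (((K Q n).filter (fun w => t ≤ |(bu w : ℝ) - fr w / gr Q ^ 2|)).card : ℝ) ≤
      200 * n ^ 2 * gr Q ^ n * Real.exp (-(t ^ 2 / (896 * (2 * n + 1)))) := by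
  obtain ⟨h1, -, h2⟩ := gr_bounds Q hQ hne
  have hg : 0 < gr Q := by linarith
  have hn' : (6 : ℝ) ≤ n := by exact_mod_cast hn
  have h3 := two_sides (GEN.inv_of Q hQ) (show 1 ≤ gr Q by linarith) hn ht
  have h4 : ∑ k ∈ range (2 * n + 2), (gr Q)⁻¹ ^ k * (a Q k : ℝ) ≤ 100 * n ^ 2 := by
    have h5 : ∀ k ∈ range (2 * n + 2), (gr Q)⁻¹ ^ k * (a Q k : ℝ) ≤ 16 * (2 * n + 1) := by
      intro k hk
      rw [mem_range] at hk
      rcases Nat.eq_zero_or_pos k with h0 | h0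
      · subst h0
        have : a Q 0 = 0 := by
          unfold a
          rw [K_small Q (show 0 < 4 by norm_num), card_empty]
        rw [this]
        push_cast
        nlinarith
      · have h6 := a_le hQ hne hc k h0
        have h7 : (k : ℝ) ≤ 2 * n + 1 := by
          have : k ≤ 2 * n + 1 := by omega
          exact_mod_cast this
        have h8 : (gr Q)⁻¹ ^ k * gr Q ^ k = 1 := by
          rw [← mul_pow, inv_mul_cancel₀ hg.ne', one_pow]
        calc (gr Q)⁻¹ ^ k * (a Q k : ℝ) ≤ (gr Q)⁻¹ ^ k * (16 * k * gr Q ^ k) := by gcongr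
          _ = 16 * k * ((gr Q)⁻¹ ^ k * gr Q ^ k) := by ring
          _ = 16 * k := by rw [h8, mul_one]
          _ ≤ _ := by linarith
    refine (sum_le_card_nsmul _ _ _ h5).trans ?_
    rw [card_range, nsmul_eq_mul]
    push_cast
    nlinarith
  refine h3.trans ?_
  have h9 : 2 * gr Q ^ n * (∑ k ∈ range (2 * n + 2), (gr Q)⁻¹ ^ k * (a Q k : ℝ)) ≤
      200 * n ^ 2 * gr Q ^ n := by
    calc 2 * gr Q ^ n * (∑ k ∈ range (2 * n + 2), (gr Q)⁻¹ ^ k * (a Q k : ℝ)) ≤
        2 * gr Q ^ n * (100 * n ^ 2) := by gcongr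
      _ = _ := by ring
  gcongr

/-- Gaussian tails up to a power of `n`, if the counts are `μ ^ n` up to powers of `n` -/
theorem poly_gauss (hQ : KClass Q) (hne : ∃ w, SAP w ∧ Q w) (b : ℕ)
    (h : ∀ᶠ j : ℕ in atTop, gr Q ^ (2 * j) ≤ (2 * j : ℝ) ^ b * pq Q (2 * j) ∧
      pq Q (2 * j) ≤ (2 * j : ℝ) ^ b * gr Q ^ (2 * j)) :
    ∃ c : ℕ, ∀ᶠ j : ℕ in atTop, ∀ t : ℝ, 0 ≤ t →
      (((K Q (2 * j)).filter (fun w => t ≤ |(bu w : ℝ) - fr w / gr Q ^ 2|)).card : ℝ) ≤
        (2 * j : ℝ) ^ c * a Q (2 * j) * Real.exp (-(t ^ 2 / (896 * (4 * j + 1)))) := by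
  obtain ⟨h1, -, h2⟩ := gr_bounds Q hQ hne
  have hg : 0 < gr Q := by linarith
  have hg1 : 1 ≤ gr Q := by linarith
  obtain ⟨J, hJ⟩ := eventually_atTop.1 h
  set C0 : ℝ := 2 * 5 ^ (2 * J) with hC0
  have hC02 : 2 ≤ C0 := by
    have : (1 : ℝ) ≤ 5 ^ (2 * J) := one_le_pow₀ (by norm_num)
    rw [hC0]; linarith
  have hup : ∀ k : ℕ, (a Q k : ℝ) ≤ C0 * (k + 1 : ℝ) ^ (b + 1) * gr Q ^ k := by
    intro k
    have hk0 : (0 : ℝ) ≤ k := Nat.cast_nonneg _
    have e1 : (1 : ℝ) ≤ (k + 1 : ℝ) ^ (b + 1) := one_le_pow₀ (by linarith)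
    have e2 : (1 : ℝ) ≤ gr Q ^ k := one_le_pow₀ hg1
    by_cases hk : k < 2 * J
    · calc (a Q k : ℝ) ≤ 2 * 5 ^ k := S_five_proof Q k
        _ ≤ 2 * 5 ^ (2 * J) := by
            gcongr
            · norm_num
        _ = C0 * 1 * 1 := by rw [hC0]; ring
        _ ≤ _ := by gcongr
    · rcases Nat.even_or_odd' k with ⟨j, rfl | rfl⟩
      · rcases Nat.eq_zero_or_pos j with h0 | h0
        · subst h0
          have : a Q (2 * 0) = 0 := by
            unfold a
            rw [K_small Q (by norm_num), card_empty]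
          rw [this]
          push_cast
          positivity
        · have h3 := (hJ j (by omega)).2
          rw [GEN.a_eq Q j h0]
          push_cast
          have hj0 : (0 : ℝ) < j := by exact_mod_cast h0
          calc pq Q (2 * j) * (2 * (2 * j)) ≤ ((2 * j : ℝ) ^ b * gr Q ^ (2 * j)) *
                (2 * (2 * j)) := by gcongr
            _ = 2 * (2 * j : ℝ) ^ (b + 1) * gr Q ^ (2 * j) := by ring
            _ ≤ C0 * (2 * j + 1 : ℝ) ^ (b + 1) * gr Q ^ (2 * j) := by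
                gcongr
                linarith
      · have : a Q (2 * j + 1) = 0 := by
          unfold a
          rw [card_eq_zero, eq_empty_iff_forall_notMem]
          intro w hw
          have h3 := mem_K.1 hw
          have h4 := even_of_closed h3.2.1.2.1
          omega
        rw [this]
        push_cast
        positivity
  have hsum : ∀ n : ℕ, ∑ k ∈ range (2 * n + 2), (gr Q)⁻¹ ^ k * (a Q k : ℝ) ≤
      C0 * (2 * n + 2 : ℝ) ^ (b + 2) := by
    intro n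
    have h5 : ∀ k ∈ range (2 * n + 2), (gr Q)⁻¹ ^ k * (a Q k : ℝ) ≤
        C0 * (2 * n + 2 : ℝ) ^ (b + 1) := by
      intro k hk
      rw [mem_range] at hk
      have h7 : (k : ℝ) + 1 ≤ 2 * n + 2 := by
        have : k + 1 ≤ 2 * n + 2 := by omega
        exact_mod_cast this
      have h8 : (gr Q)⁻¹ ^ k * gr Q ^ k = 1 := by
        rw [← mul_pow, inv_mul_cancel₀ hg.ne', one_pow]
      calc (gr Q)⁻¹ ^ k * (a Q k : ℝ) ≤
            (gr Q)⁻¹ ^ k * (C0 * (k + 1 : ℝ) ^ (b + 1) * gr Q ^ k) := by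
            have := hup k
            gcongr
        _ = C0 * (k + 1 : ℝ) ^ (b + 1) * ((gr Q)⁻¹ ^ k * gr Q ^ k) := by ring
        _ = C0 * (k + 1 : ℝ) ^ (b + 1) := by rw [h8, mul_one]
        _ ≤ _ := by gcongr
    refine (sum_le_card_nsmul _ _ _ h5).trans ?_
    rw [card_range, nsmul_eq_mul]
    push_cast
    apply le_of_eq
    ring
  refine ⟨2 * b + 3, ?_⟩
  have hlarge : ∀ᶠ j : ℕ in atTop, 2 * C0 * 4 ^ (b + 2) ≤ 2 * (j : ℝ) := by
    have : Tendsto (fun j : ℕ => 2 * (j : ℝ)) atTop atTop :=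
      tendsto_natCast_atTop_atTop.const_mul_atTop (by norm_num)
    exact this.eventually_ge_atTop _
  filter_upwards [h, hlarge, eventually_ge_atTop 3] with j h3 h4 hj
  intro t ht0
  have e4 : (4 * (j : ℝ) + 1) = 2 * (2 * j) + 1 := by ring
  rw [e4]
  set n := 2 * j with hn
  have hn' : (n : ℝ) = 2 * j := by rw [hn]; push_cast; ring
  rw [← hn'] at h3 h4 ⊢
  have hn6 : 6 ≤ n := by omega
  have hn6' : (6 : ℝ) ≤ n := by exact_mod_cast hn6
  have ha : gr Q ^ n ≤ (n : ℝ) ^ b * a Q n := by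
    refine h3.1.trans ?_
    have := GEN.pn_le_a Q j (by omega)
    rw [← hn] at this
    gcongr
  have h5 := two_sides (GEN.inv_of Q hQ) hg1 hn6 ht0
  refine h5.trans ?_
  apply mul_le_mul_of_nonneg_right _ (Real.exp_pos _).le
  calc 2 * gr Q ^ n * (∑ k ∈ range (2 * n + 2), (gr Q)⁻¹ ^ k * (a Q k : ℝ)) ≤
        2 * ((n : ℝ) ^ b * a Q n) * (C0 * (4 * n : ℝ) ^ (b + 2)) := by
        have e5 : ∑ k ∈ range (2 * n + 2), (gr Q)⁻¹ ^ k * (a Q k : ℝ) ≤
            C0 * (4 * n : ℝ) ^ (b + 2) := by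
          refine (hsum n).trans ?_
          gcongr
          linarith
        gcongr
    _ = (2 * C0 * 4 ^ (b + 2)) * ((n : ℝ) ^ (2 * b + 2) * (a Q n)) := by
        rw [mul_pow]
        ring
    _ ≤ n * ((n : ℝ) ^ (2 * b + 2) * (a Q n)) := by gcongr
    _ = (n : ℝ) ^ (2 * b + 3) * a Q n := by ring

/-- the asymptotic form asked for in Q1 gives the hypothesis of `poly_gauss` -/
theorem of_form (hQ : KClass Q) (hne : ∃ w, SAP w ∧ Q w) {A α : ℝ} (hA : 0 < A)
    (h : Tendsto (fun j : ℕ => pq Q (2 * j) / ((2 * j : ℝ) ^ (α - 3) * gr Q ^ (2 * j))) atTop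
      (𝓝 A)) :
    ∃ b : ℕ, ∀ᶠ j : ℕ in atTop, gr Q ^ (2 * j) ≤ (2 * j : ℝ) ^ b * pq Q (2 * j) ∧
      pq Q (2 * j) ≤ (2 * j : ℝ) ^ b * gr Q ^ (2 * j) := by
  obtain ⟨h1, -, h2⟩ := gr_bounds Q hQ hne
  have hg : 0 < gr Q := by linarith
  set c : ℕ := ⌈|α - 3|⌉₊ with hc
  have hc1 : |α - 3| ≤ c := Nat.le_ceil _
  refine ⟨c + 1, ?_⟩
  have hlarge : ∀ M : ℝ, ∀ᶠ j : ℕ in atTop, M ≤ 2 * (j : ℝ) := by
    intro M
    have : Tendsto (fun j : ℕ => 2 * (j : ℝ)) atTop atTop :=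
      tendsto_natCast_atTop_atTop.const_mul_atTop (by norm_num)
    exact this.eventually_ge_atTop _
  filter_upwards [h.eventually_const_lt (show A / 2 < A by linarith),
    h.eventually_lt_const (show A < 2 * A by linarith), hlarge (2 * A), hlarge (2 / A),
    hlarge 1] with j h3 h4 h5 h6 h7
  set x : ℝ := 2 * (j : ℝ) with hx
  have hx0 : 0 < x := by linarith
  have hxp : 0 < x ^ (α - 3) := Real.rpow_pos_of_pos hx0 _
  have hgp : 0 < gr Q ^ (2 * j) := by positivity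
  rw [lt_div_iff₀ (by positivity)] at h3
  rw [div_lt_iff₀ (by positivity)] at h4
  have e1 : x ^ (α - 3) ≤ x ^ c := by
    rw [← Real.rpow_natCast]
    exact Real.rpow_le_rpow_of_exponent_le h7 ((le_abs_self _).trans hc1)
  have e2 : 1 ≤ x ^ c * x ^ (α - 3) := by
    rw [← Real.rpow_natCast, ← Real.rpow_add hx0]
    apply Real.one_le_rpow h7
    have := neg_abs_le (α - 3)
    linarith
  constructor
  · have e3 : gr Q ^ (2 * j) ≤ x ^ c * x ^ (α - 3) * gr Q ^ (2 * j) := by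
      nlinarith
    have e4 : x ^ (α - 3) * gr Q ^ (2 * j) ≤ 2 / A * pq Q (2 * j) := by
      rw [div_mul_eq_mul_div, le_div_iff₀ hA]
      nlinarith
    calc gr Q ^ (2 * j) ≤ x ^ c * (x ^ (α - 3) * gr Q ^ (2 * j)) := by
          rw [← mul_assoc]; exact e3
      _ ≤ x ^ c * (2 / A * pq Q (2 * j)) := by gcongr
      _ ≤ x ^ c * (x * pq Q (2 * j)) := by
          have := GEN.pn_nonneg Q (2 * j)
          gcongr
      _ = _ := by ring
  · calc pq Q (2 * j) ≤ 2 * A * (x ^ (α - 3) * gr Q ^ (2 * j)) := h4.le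
      _ ≤ x * (x ^ c * gr Q ^ (2 * j)) := by gcongr
      _ = _ := by ring

end KB

end

end KN
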