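import Pool.Agent.R423.KB.Gauss2

/-!
# A rate for the quotient of the means
-/

set_option autoImplicit false

namespace KN

open Finset Filter Topology
open scoped Classical

noncomputable section

namespace KB

variable {Q : List Dir → Prop}

theorem csum_mean_rate (hQ : KClass Q) (hne : ∃ w, SAP w ∧ Q w) (hc : CSum Q) :
    ∃ C : ℝ, ∀ᶠ j : ℕ in atTop,
      |(∑ w ∈ K Q (2 * j), (fr w : ℝ)) / (∑ w ∈ K Q (2 * j), (bu w : ℝ)) - gr Q ^ 2| ≤
        C * Real.sqrt ((Real.log (2 * j) + Real.log (gr Q ^ (2 * j) / pq Q (2 * j))) /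
          (2 * j)) := by
  obtain ⟨h1, -, h2⟩ := gr_bounds Q hQ hne
  have hg : 0 < gr Q := by linarith
  obtain ⟨δ, hδ, hδ1, hm⟩ := mean_bu hQ hne
  refine ⟨10 ^ 11, ?_⟩
  filter_upwards [hm, csum_close hQ hne hc δ hδ hδ1, eventually_ge_atTop 3200] with j h3 h4 hj
  have h5 := h3 h4
  have hj0 : 0 < j := by omega
  have hpq : 0 < pq Q (2 * j) := by
    have : 0 < 1 - δ := by linarith
    exact lt_of_lt_of_le (by positivity) h4
  have haeq := GEN.a_eq Q j hj0
  have hale := a_le hQ hne hc (2 * j) (by omega)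
  set n := 2 * j with hn
  have hn' : (n : ℝ) = 2 * j := by rw [hn]; push_cast; ring
  rw [← hn'] at h5 haeq ⊢
  have hn6 : (6400 : ℝ) ≤ n := by
    have : 6400 ≤ n := by omega
    exact_mod_cast this
  have hn0 : (0 : ℝ) < n := by linarith
  have ha : 0 < (a Q n : ℝ) := by rw [haeq]; positivity
  set p : ℝ := pq Q n with hp
  set R : ℝ := gr Q ^ n / p with hR
  have hpR : gr Q ^ n = p * R := by rw [hR]; field_simp
  have hR8 : 1 / 8 ≤ R := by
    rw [hR, le_div_iff₀ hpq]
    rw [haeq] at hale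
    nlinarith
  have hR0 : 0 < R := by linarith
  set L : ℝ := Real.log n + Real.log R with hL
  have hLe : L = Real.log (n * R) := by rw [hL, Real.log_mul hn0.ne' hR0.ne']
  have hL1 : 1 ≤ L := by
    rw [hLe, Real.le_log_iff_exp_le (by positivity)]
    have := Real.exp_one_lt_d9
    nlinarith
  set t : ℝ := 78 * Real.sqrt (n * L) with ht
  have hnL : 1 ≤ n * L := by nlinarith
  have hs1 : 1 ≤ Real.sqrt (n * L) := Real.one_le_sqrt.2 hnL
  have ht1 : 1 ≤ t := by rw [ht]; linarith
  have ht2 : t ^ 2 = 6084 * (n * L) := by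
    rw [ht, mul_pow, Real.sq_sqrt (by linarith)]; norm_num
  set Bd := (K Q n).filter (fun w => t ≤ |(bu w : ℝ) - fr w / gr Q ^ 2|) with hBd
  have hcard : (Bd.card : ℝ) ≤ 2 * p := by
    have h6 := csum_gauss hQ hne hc (n := n) (by omega) (t := t) (by linarith)
    have h7 : Real.exp (-(t ^ 2 / (896 * (2 * n + 1)))) ≤ ((n * R) ^ 3)⁻¹ := by
      have e1 : ((n * R) ^ 3)⁻¹ = Real.exp (-(3 * L)) := by
        rw [Real.exp_neg]
        congr 1
        have : (3 : ℝ) = ((3 : ℕ) : ℝ) := by norm_num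
        rw [this, Real.exp_nat_mul, hLe, Real.exp_log (by positivity)]
      rw [e1]
      apply Real.exp_le_exp.2
      apply neg_le_neg
      rw [le_div_iff₀ (by positivity), ht2]
      nlinarith
    refine h6.trans ?_
    calc 200 * (n : ℝ) ^ 2 * gr Q ^ n * Real.exp (-(t ^ 2 / (896 * (2 * n + 1)))) ≤
        200 * (n : ℝ) ^ 2 * (p * R) * ((n * R) ^ 3)⁻¹ := by
          rw [hpR]
          gcongr
      _ = 200 * p / (n * R ^ 2) := by
          field_simp
      _ ≤ 2 * p := by
          rw [div_le_iff₀ (by positivity)]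
          have : 1 / 64 ≤ R ^ 2 := by nlinarith
          have : 100 ≤ n * R ^ 2 := by nlinarith
          nlinarith
  have hsum : ∑ w ∈ K Q n, |(bu w : ℝ) - fr w / gr Q ^ 2| ≤ (t + 1) * a Q n := by
    have h6 : ∀ w ∈ K Q n, |(bu w : ℝ) - fr w / gr Q ^ 2| ≤
        t + if w ∈ Bd then (n : ℝ) else 0 := by
      intro w hw
      have hl := (mem_K.1 hw).1
      by_cases hx : w ∈ Bd
      · rw [if_pos hx]
        have h5 : (fr w : ℝ) ≤ 6 * n := by
          have := @fr_le w
          rw [hl] at this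
          exact_mod_cast this
        have h6 : (bu w : ℝ) ≤ n := by
          have := @bu_le w
          rw [hl] at this
          exact_mod_cast this
        have h7 : (0 : ℝ) ≤ fr w := Nat.cast_nonneg _
        have h8 : (0 : ℝ) ≤ bu w := Nat.cast_nonneg _
        have h9 : (fr w : ℝ) / gr Q ^ 2 ≤ n := by
          rw [div_le_iff₀ (by positivity)]
          have h11 : 6 ≤ gr Q ^ 2 := by nlinarith
          calc (fr w : ℝ) ≤ 6 * n := h5
            _ = n * 6 := by ring
            _ ≤ n * gr Q ^ 2 := by gcongr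
        have h10 : (0 : ℝ) ≤ fr w / gr Q ^ 2 := by positivity
        rw [abs_le]
        constructor <;> linarith
      · rw [if_neg hx, add_zero]
        by_contra h
        push Not at h
        exact hx (mem_filter.2 ⟨hw, h.le⟩)
    refine (sum_le_sum h6).trans ?_
    rw [sum_add_distrib, sum_const, nsmul_eq_mul, ← sum_filter, sum_const, nsmul_eq_mul]
    have h7 : (K Q n).filter (fun w => w ∈ Bd) = Bd := by
      ext w
      rw [mem_filter]
      exact ⟨fun h => h.2, fun h => ⟨(mem_filter.1 h).1, h⟩⟩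
    rw [h7]
    have h8 : ((K Q n).card : ℝ) = a Q n := rfl
    rw [h8]
    have h9 : (Bd.card : ℝ) * n ≤ 2 * p * n := by gcongr
    rw [haeq] at *
    nlinarith
  set SB := ∑ w ∈ K Q n, (bu w : ℝ) with hSB
  set SFr := ∑ w ∈ K Q n, (fr w : ℝ) with hSFr
  have hSB0 : 0 < SB := by
    have : 0 < n * (a Q n : ℝ) := by positivity
    linarith
  have h8 : |SB - SFr / gr Q ^ 2| ≤ (t + 1) * a Q n := by
    refine le_trans ?_ hsum
    have : SB - SFr / gr Q ^ 2 = ∑ w ∈ K Q n, ((bu w : ℝ) - fr w / gr Q ^ 2) := by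
      rw [sum_sub_distrib, ← sum_div]
    rw [this]
    exact abs_sum_le_sum_abs _ _
  have h9 : SFr / SB - gr Q ^ 2 = -(gr Q ^ 2 * (SB - SFr / gr Q ^ 2) / SB) := by
    field_simp
    ring
  rw [h9, abs_neg, abs_div, abs_mul, abs_of_pos hSB0, abs_of_pos (by positivity : 0 < gr Q ^ 2),
    div_le_iff₀ hSB0]
  have hg2 : gr Q ^ 2 ≤ 25 := by nlinarith
  have hsq : Real.sqrt (L / n) * n = Real.sqrt (n * L) := by
    have e1 : n * L = L / n * (n ^ 2) := by field_simp
    rw [e1, Real.sqrt_mul (by positivity), Real.sqrt_sq hn0.le]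
  calc gr Q ^ 2 * |SB - SFr / gr Q ^ 2| ≤ 25 * ((t + 1) * a Q n) := by gcongr
    _ ≤ 25 * ((158 / 2 * 2 * Real.sqrt (n * L)) * a Q n) := by
        gcongr
        rw [ht]
        linarith
    _ = 3950 * (Real.sqrt (L / n) * (n * a Q n)) := by rw [← hsq]; ring
    _ ≤ 3950 * (Real.sqrt (L / n) * (2 * 10 ^ 7 * SB)) := by gcongr
    _ = (3950 * (2 * 10 ^ 7)) * Real.sqrt (L / n) * SB := by ring
    _ ≤ 10 ^ 11 * Real.sqrt (L / n) * SB := by
        gcongr
        norm_num

end KB

end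

end KN
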