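import Pool.Agent.R423.KB.Sum
import Pool.Agent.H246KN.GEN

/-!
# Balance of free plaquettes and bumps in classes of knot types
-/

set_option autoImplicit false

namespace KN

open Finset Filter Topology
open scoped Classical

noncomputable section

namespace KB

variable {Q : List Dir → Prop}

theorem class_main (hQ : KClass Q) (hne : ∃ w, SAP w ∧ Q w) (ε : ℝ) (hε : 0 < ε)
    (hε1 : ε ≤ 1) :
    ∃ C : ℝ, 0 < C ∧ ∀ n : ℕ, ((Ex Q (gr Q) ε n).card : ℝ) ≤
      C * ((1 - ε ^ 2 / 20000) * gr Q) ^ n := by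
  obtain ⟨h1, -, h2⟩ := gr_bounds Q hQ hne
  exact main c_up c_down S_five_proof Q (GEN.inv_of Q hQ) (gr Q) (by linarith) h2
    (fun τ hτ => GEN.upper S_five_proof Q (by linarith) τ hτ) ε hε hε1

/-- the ratio -/
theorem class_ratio_ex (hQ : KClass Q) (hne : ∃ w, SAP w ∧ Q w) (ε : ℝ) (hε : 0 < ε) :
    ∃ θ C : ℝ, 0 < θ ∧ θ < 1 ∧ 0 < C ∧ ∀ n : ℕ,
      (((K Q n).filter (fun w => ε * bu w ≤ |dv (gr Q ^ 2) w|)).card : ℝ) ≤
        C * (θ * gr Q) ^ n := by
  obtain ⟨h1, -, h2⟩ := gr_bounds Q hQ hne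
  obtain ⟨θ1, C1, hθ1, hθ1', hp⟩ := class_pattern Q hQ hne
  set e : ℝ := min ε 1 / 10 ^ 7 with he
  have he0 : 0 < e := by
    have : 0 < min ε 1 := lt_min hε one_pos
    positivity
  have he1 : e ≤ 1 := by
    rw [he, div_le_one (by positivity)]
    exact (min_le_right _ _).trans (by norm_num)
  obtain ⟨C2, hC2, hm⟩ := class_main hQ hne e he0 he1
  have he2 : e ^ 2 ≤ 1 := by nlinarith
  have hθ2 : 0 < 1 - e ^ 2 / 20000 := by linarith
  have hθ2' : 1 - e ^ 2 / 20000 < 1 := by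
    have : 0 < e ^ 2 := by positivity
    linarith
  refine ⟨max θ1 (1 - e ^ 2 / 20000), |C1| + C2, lt_max_of_lt_left hθ1, max_lt hθ1' hθ2',
    by positivity, fun n => ?_⟩
  have hsub : (K Q n).filter (fun w => ε * bu w ≤ |dv (gr Q ^ 2) w|) ⊆
      (K Q n).filter (fun w => 10 ^ 7 * fr w ≤ n ∨ 10 ^ 7 * bu w ≤ n) ∪ Ex Q (gr Q) e n := by
    intro w hw
    rw [mem_filter] at hw
    rw [mem_union, mem_filter]
    by_cases hb : 10 ^ 7 * bu w ≤ n
    · exact Or.inl ⟨hw.1, Or.inr hb⟩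
    · right
      unfold Ex
      rw [mem_filter]
      refine ⟨hw.1, le_trans ?_ hw.2⟩
      push Not at hb
      have hb' : (n : ℝ) < 10 ^ 7 * bu w := by exact_mod_cast hb
      have h3 : min ε 1 ≤ ε := min_le_left _ _
      have h4 : 0 < min ε 1 := lt_min hε one_pos
      have h5 : (0 : ℝ) ≤ bu w := Nat.cast_nonneg _
      rw [he, div_mul_eq_mul_div, div_le_iff₀ (by positivity)]
      calc min ε 1 * n ≤ min ε 1 * (10 ^ 7 * bu w) := by gcongr
        _ ≤ ε * (10 ^ 7 * bu w) := by gcongr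
        _ = _ := by ring
  have h3 : (((K Q n).filter (fun w => ε * bu w ≤ |dv (gr Q ^ 2) w|)).card : ℝ) ≤
      (bad Q n : ℝ) + (Ex Q (gr Q) e n).card := by
    have h4 := (card_le_card hsub).trans (card_union_le _ _)
    unfold bad
    exact_mod_cast h4
  have hg : 0 < gr Q := by linarith
  calc _ ≤ (bad Q n : ℝ) + (Ex Q (gr Q) e n).card := h3
    _ ≤ C1 * (θ1 * gr Q) ^ n + C2 * ((1 - e ^ 2 / 20000) * gr Q) ^ n := add_le_add (hp n) (hm n)
    _ ≤ |C1| * (max θ1 (1 - e ^ 2 / 20000) * gr Q) ^ n +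
        C2 * (max θ1 (1 - e ^ 2 / 20000) * gr Q) ^ n := by
        gcongr
        · exact le_abs_self _
        · exact le_max_left _ _
        · exact le_max_right _ _
    _ = _ := by ring

/-- the mean deviation, at the lengths where the counts are close to their growth rate -/
theorem mean_dev (hQ : KClass Q) (hne : ∃ w, SAP w ∧ Q w) (ε : ℝ) (hε : 0 < ε) :
    ∃ δ : ℝ, 0 < δ ∧ δ < 1 ∧ ∀ᶠ j : ℕ in atTop, ((1 - δ) * gr Q) ^ (2 * j) ≤ pq Q (2 * j) →
      ∑ w ∈ K Q (2 * j), |dv (gr Q ^ 2) w| ≤ ε * (2 * j) * a Q (2 * j) := by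
  obtain ⟨h1, -, h2⟩ := gr_bounds Q hQ hne
  have hg : 0 < gr Q := by linarith
  set e : ℝ := min (ε / 2) 1 with he
  have he0 : 0 < e := lt_min (by linarith) one_pos
  have he1 : e ≤ 1 := min_le_right _ _
  have heε : e ≤ ε / 2 := min_le_left _ _
  obtain ⟨C, hC, hm⟩ := class_main hQ hne e he0 he1
  have he2 : e ^ 2 ≤ 1 := by nlinarith
  have he3 : 0 < e ^ 2 := by positivity
  set δ : ℝ := e ^ 2 / 40000 with hδ
  have hδ0 : 0 < δ := by positivity
  have hδ1 : δ < 1 := by rw [hδ]; linarith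
  set ρ : ℝ := (1 - e ^ 2 / 20000) / (1 - δ) with hρ
  have hρ0 : 0 < ρ := by
    apply div_pos <;> linarith
  have hρ1 : ρ < 1 := by
    rw [hρ, div_lt_one (by linarith), hδ]
    linarith
  refine ⟨δ, hδ0, hδ1, ?_⟩
  have ht : Tendsto (fun j : ℕ => 31 * C * (ρ ^ 2) ^ j) atTop (𝓝 (31 * C * 0)) :=
    (tendsto_pow_atTop_nhds_zero_of_lt_one (by positivity) (by nlinarith)).const_mul _
  rw [mul_zero] at ht
  filter_upwards [ht.eventually_lt_const (show (0 : ℝ) < ε / 2 by linarith),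
    eventually_gt_atTop 0] with j h3 hj h4
  set n := 2 * j with hn
  have hn' : (n : ℝ) = 2 * j := by rw [hn]; push_cast; ring
  have ha : ((1 - δ) * gr Q) ^ n ≤ (a Q n : ℝ) := h4.trans (GEN.pn_le_a Q j hj)
  have hsplit : ∑ w ∈ K Q n, |dv (gr Q ^ 2) w| ≤
      ∑ w ∈ K Q n, (e * n + if w ∈ Ex Q (gr Q) e n then 31 * (n : ℝ) else 0) := by
    apply sum_le_sum
    intro w hw
    have hl := (mem_K.1 hw).1
    by_cases hx : w ∈ Ex Q (gr Q) e n
    · rw [if_pos hx]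
      have h5 : (fr w : ℝ) ≤ 6 * n := by
        have := @fr_le w
        rw [hl] at this
        exact_mod_cast this
      have h6 : (bu w : ℝ) ≤ n := by
        have := @bu_le w
        rw [hl] at this
        exact_mod_cast this
      have h7 : (0 : ℝ) ≤ fr w := Nat.cast_nonneg _
      have h8 : (0 : ℝ) ≤ bu w := Nat.cast_nonneg _
      have h9 : gr Q ^ 2 ≤ 25 := by nlinarith
      have h10 : gr Q ^ 2 * bu w ≤ 25 * n := by
        calc gr Q ^ 2 * bu w ≤ 25 * bu w := by gcongr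
          _ ≤ 25 * n := by gcongr
      have h11 : 0 ≤ gr Q ^ 2 * bu w := by positivity
      have h12 : (0 : ℝ) ≤ e * n := by positivity
      unfold dv
      rw [abs_le]
      constructor <;> linarith
    · rw [if_neg hx]
      have h5 : ¬ (e * n ≤ |dv (gr Q ^ 2) w|) := fun h => hx (mem_filter.2 ⟨hw, h⟩)
      push Not at h5
      linarith
  have hsum : ∑ w ∈ K Q n, (e * n + if w ∈ Ex Q (gr Q) e n then 31 * (n : ℝ) else 0) =
      e * n * a Q n + 31 * n * (Ex Q (gr Q) e n).card := by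
    rw [sum_add_distrib, sum_const, nsmul_eq_mul, ← sum_filter, sum_const, nsmul_eq_mul]
    have : (K Q n).filter (fun w => w ∈ Ex Q (gr Q) e n) = Ex Q (gr Q) e n := by
      ext w
      rw [mem_filter]
      exact ⟨fun h => h.2, fun h => ⟨(mem_filter.1 h).1, h⟩⟩
    rw [this]
    unfold a
    ring
  have hex : 31 * ((Ex Q (gr Q) e n).card : ℝ) ≤ ε / 2 * a Q n := by
    have h5 : ((1 - e ^ 2 / 20000) * gr Q) ^ n = (ρ ^ 2) ^ j * ((1 - δ) * gr Q) ^ n := by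
      rw [← pow_mul, ← hn, ← mul_pow, hρ]
      congr 1
      have : (1 - δ) ≠ 0 := by linarith
      field_simp
    have h6 := hm n
    rw [h5] at h6
    have h7 : 0 ≤ ((1 - δ) * gr Q) ^ n := by
      have : 0 < 1 - δ := by linarith
      positivity
    have h8 : (0 : ℝ) ≤ a Q n := Nat.cast_nonneg _
    calc 31 * ((Ex Q (gr Q) e n).card : ℝ) ≤
        31 * (C * ((ρ ^ 2) ^ j * ((1 - δ) * gr Q) ^ n)) := by linarith
      _ = (31 * C * (ρ ^ 2) ^ j) * ((1 - δ) * gr Q) ^ n := by ring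
      _ ≤ ε / 2 * a Q n := mul_le_mul h3.le ha h7 (by linarith)
  rw [← hn']
  have hn0 : (0 : ℝ) ≤ n := Nat.cast_nonneg _
  have ha0 : (0 : ℝ) ≤ a Q n := Nat.cast_nonneg _
  calc ∑ w ∈ K Q n, |dv (gr Q ^ 2) w| ≤ e * n * a Q n + 31 * n * (Ex Q (gr Q) e n).card := by
        rw [← hsum]; exact hsplit
    _ ≤ ε / 2 * n * a Q n + n * (ε / 2 * a Q n) := by
        have h5 : e * n * a Q n ≤ ε / 2 * n * a Q n := by gcongr
        have h6 := mul_le_mul_of_nonneg_left hex hn0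
        nlinarith
    _ = _ := by ring

/-- many bumps in the mean -/
theorem mean_bu (hQ : KClass Q) (hne : ∃ w, SAP w ∧ Q w) :
    ∃ δ : ℝ, 0 < δ ∧ δ < 1 ∧ ∀ᶠ j : ℕ in atTop, ((1 - δ) * gr Q) ^ (2 * j) ≤ pq Q (2 * j) →
      (2 * j) * (a Q (2 * j) : ℝ) ≤ 2 * 10 ^ 7 * ∑ w ∈ K Q (2 * j), (bu w : ℝ) := by
  obtain ⟨h1, -, h2⟩ := gr_bounds Q hQ hne
  have hg : 0 < gr Q := by linarith
  obtain ⟨θ, C, hθ, hθ1, hp⟩ := class_pattern Q hQ hne
  set δ : ℝ := (1 - θ) / 2 with hδ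
  have hδ0 : 0 < δ := by rw [hδ]; linarith
  have hδ1 : δ < 1 := by rw [hδ]; linarith
  set ρ : ℝ := θ / (1 - δ) with hρ
  have hρ0 : 0 < ρ := by
    apply div_pos <;> linarith
  have hρ1 : ρ < 1 := by
    rw [hρ, div_lt_one (by linarith), hδ]
    linarith
  refine ⟨δ, hδ0, hδ1, ?_⟩
  have ht : Tendsto (fun j : ℕ => |C| * (ρ ^ 2) ^ j) atTop (𝓝 (|C| * 0)) :=
    (tendsto_pow_atTop_nhds_zero_of_lt_one (by positivity) (by nlinarith)).const_mul _
  rw [mul_zero] at ht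
  filter_upwards [ht.eventually_lt_const (show (0 : ℝ) < 1 / 2 by norm_num),
    eventually_gt_atTop 0] with j h3 hj h4
  set n := 2 * j with hn
  have hn' : (n : ℝ) = 2 * j := by rw [hn]; push_cast; ring
  rw [← hn']
  have ha : ((1 - δ) * gr Q) ^ n ≤ (a Q n : ℝ) := h4.trans (GEN.pn_le_a Q j hj)
  have hbad : (bad Q n : ℝ) ≤ 1 / 2 * a Q n := by
    have h5 : (θ * gr Q) ^ n = (ρ ^ 2) ^ j * ((1 - δ) * gr Q) ^ n := by
      rw [← pow_mul, ← hn, ← mul_pow, hρ]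
      congr 1
      have : (1 - δ) ≠ 0 := by linarith
      field_simp
    have h6 := hp n
    rw [h5] at h6
    have h7 : 0 ≤ ((1 - δ) * gr Q) ^ n := by
      have : 0 < 1 - δ := by linarith
      positivity
    calc (bad Q n : ℝ) ≤ C * ((ρ ^ 2) ^ j * ((1 - δ) * gr Q) ^ n) := h6
      _ ≤ |C| * ((ρ ^ 2) ^ j * ((1 - δ) * gr Q) ^ n) := by
          gcongr
          exact le_abs_self _
      _ = (|C| * (ρ ^ 2) ^ j) * ((1 - δ) * gr Q) ^ n := by ring
      _ ≤ 1 / 2 * a Q n := mul_le_mul h3.le ha h7 (by norm_num)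
  have h5 : ∑ w ∈ K Q n, ((n : ℝ) - if (10 ^ 7 * fr w ≤ n ∨ 10 ^ 7 * bu w ≤ n) then (n : ℝ) else 0) ≤
      ∑ w ∈ K Q n, 10 ^ 7 * (bu w : ℝ) := by
    apply sum_le_sum
    intro w _
    split_ifs with hc
    · have : (0 : ℝ) ≤ bu w := Nat.cast_nonneg _
      linarith
    · push Not at hc
      have : (n : ℝ) < 10 ^ 7 * bu w := by exact_mod_cast hc.2
      linarith
  rw [sum_sub_distrib, sum_const, nsmul_eq_mul, ← sum_filter, sum_const, nsmul_eq_mul,
    ← mul_sum] at h5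
  have h6 : ((K Q n).card : ℝ) = a Q n := rfl
  have h7 : (((K Q n).filter (fun w => 10 ^ 7 * fr w ≤ n ∨ 10 ^ 7 * bu w ≤ n)).card : ℝ) =
      bad Q n := rfl
  rw [h6, h7] at h5
  have hn0 : (0 : ℝ) ≤ n := Nat.cast_nonneg _
  nlinarith

/-- the ratio of the means -/
theorem mean_ratio (hQ : KClass Q) (hne : ∃ w, SAP w ∧ Q w) (ε : ℝ) (hε : 0 < ε) :
    ∃ δ : ℝ, 0 < δ ∧ δ < 1 ∧ ∀ᶠ j : ℕ in atTop, ((1 - δ) * gr Q) ^ (2 * j) ≤ pq Q (2 * j) →
      |(∑ w ∈ K Q (2 * j), (fr w : ℝ)) / (∑ w ∈ K Q (2 * j), (bu w : ℝ)) - gr Q ^ 2| ≤ ε := by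
  obtain ⟨h1, -, h2⟩ := gr_bounds Q hQ hne
  have hg : 0 < gr Q := by linarith
  obtain ⟨δ1, hδ1, hδ1', hm1⟩ := mean_dev hQ hne (ε / (2 * 10 ^ 7)) (by positivity)
  obtain ⟨δ2, hδ2, hδ2', hm2⟩ := mean_bu hQ hne
  refine ⟨min δ1 δ2, lt_min hδ1 hδ2, (min_le_left _ _).trans_lt hδ1', ?_⟩
  filter_upwards [hm1, hm2, eventually_gt_atTop 0] with j h3 h4 hj h5
  have hmono : ∀ δ : ℝ, min δ1 δ2 ≤ δ → δ < 1 →
      ((1 - δ) * gr Q) ^ (2 * j) ≤ pq Q (2 * j) := by
    intro δ h6 h7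
    refine le_trans ?_ h5
    have : 0 ≤ 1 - δ := by linarith
    gcongr
  have h6 := h3 (hmono δ1 (min_le_left _ _) hδ1')
  have h7 := h4 (hmono δ2 (min_le_right _ _) hδ2')
  have ha : 0 < (a Q (2 * j) : ℝ) := by
    have h8 : 0 < ((1 - min δ1 δ2) * gr Q) ^ (2 * j) := by
      have : min δ1 δ2 < 1 := (min_le_left _ _).trans_lt hδ1'
      have : 0 < 1 - min δ1 δ2 := by linarith
      positivity
    exact (h8.trans_le h5).trans_le (GEN.pn_le_a Q j hj)
  have hj' : (0 : ℝ) < j := by exact_mod_cast hj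
  set SB := ∑ w ∈ K Q (2 * j), (bu w : ℝ) with hSB
  set SF := ∑ w ∈ K Q (2 * j), (fr w : ℝ) with hSF
  have hSB0 : 0 < SB := by
    have : 0 < (2 * j) * (a Q (2 * j) : ℝ) := by positivity
    linarith
  have h8 : |SF - gr Q ^ 2 * SB| ≤ ε / (2 * 10 ^ 7) * (2 * j) * a Q (2 * j) := by
    refine le_trans ?_ h6
    have : SF - gr Q ^ 2 * SB = ∑ w ∈ K Q (2 * j), dv (gr Q ^ 2) w := by
      unfold dv
      rw [sum_sub_distrib, ← mul_sum]
    rw [this]
    exact abs_sum_le_sum_abs _ _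
  have h9 : SF / SB - gr Q ^ 2 = (SF - gr Q ^ 2 * SB) / SB := by
    field_simp
  rw [h9, abs_div, abs_of_pos hSB0, div_le_iff₀ hSB0]
  calc |SF - gr Q ^ 2 * SB| ≤ ε / (2 * 10 ^ 7) * (2 * j) * a Q (2 * j) := h8
    _ = ε / (2 * 10 ^ 7) * ((2 * j) * a Q (2 * j)) := by ring
    _ ≤ ε / (2 * 10 ^ 7) * (2 * 10 ^ 7 * SB) := by gcongr
    _ = ε * SB := by field_simp

/-- double counting -/
theorem fr_bu (hQ : KClass Q) (n : ℕ) (hn : 4 ≤ n) :
    ∑ w ∈ K Q n, (fr w : ℝ) = ∑ w ∈ K Q (n + 2), (bu w : ℝ) := by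
  have h := c_sum Q (GEN.inv_of Q hQ) n hn (fun _ _ => 1)
  simpa [fr, bu] using h

/-- counts of classes closed under connected sums are close to their growth rate -/
theorem csum_close (hQ : KClass Q) (hne : ∃ w, SAP w ∧ Q w) (hc : CSum Q) (δ : ℝ)
    (hδ : 0 < δ) (hδ1 : δ < 1) :
    ∀ᶠ j : ℕ in atTop, ((1 - δ) * gr Q) ^ (2 * j) ≤ pq Q (2 * j) := by
  obtain ⟨h1, -, h2⟩ := gr_bounds Q hQ hne
  have h3 := (class_sum Q hQ hne hc).1
  have h4 : (1 - δ) * gr Q < gr Q := by nlinarith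
  filter_upwards [h3.eventually_const_lt h4, eventually_gt_atTop 0] with j h5 hj
  have hp : 0 ≤ pq Q (2 * j) := GEN.pn_nonneg Q _
  have hj' : (0 : ℝ) < j := by exact_mod_cast hj
  calc ((1 - δ) * gr Q) ^ (2 * j) ≤ ((pq Q (2 * j)) ^ (1 / (2 * j : ℝ))) ^ (2 * j) := by
        have : 0 ≤ (1 - δ) * gr Q := by
          have : 0 ≤ 1 - δ := by linarith
          positivity
        gcongr
    _ = pq Q (2 * j) := by
        rw [← Real.rpow_natCast, ← Real.rpow_mul hp]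
        push_cast
        rw [one_div_mul_cancel (by positivity), Real.rpow_one]

theorem csum_ratio (hQ : KClass Q) (hne : ∃ w, SAP w ∧ Q w) (hc : CSum Q) :
    Tendsto (fun j : ℕ => (∑ w ∈ K Q (2 * j), (fr w : ℝ)) / (∑ w ∈ K Q (2 * j), (bu w : ℝ)))
      atTop (𝓝 (gr Q ^ 2)) := by
  rw [Metric.tendsto_atTop]
  intro ε hε
  obtain ⟨δ, hδ, hδ1, h⟩ := mean_ratio hQ hne (ε / 2) (by positivity)
  obtain ⟨N, hN⟩ := eventually_atTop.1 (h.and (csum_close hQ hne hc δ hδ hδ1))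
  refine ⟨N, fun j hj => ?_⟩
  obtain ⟨h1, h2⟩ := hN j hj
  rw [Real.dist_eq]
  linarith [h1 h2]

theorem csum_mean (hQ : KClass Q) (hne : ∃ w, SAP w ∧ Q w) (hc : CSum Q) :
    Tendsto (fun j : ℕ => ((∑ w ∈ K Q (2 * j + 2), (bu w : ℝ)) / a Q (2 * j + 2)) /
      ((∑ w ∈ K Q (2 * j), (bu w : ℝ)) / a Q (2 * j))) atTop (𝓝 1) := by
  obtain ⟨h1, -, h2⟩ := gr_bounds Q hQ hne
  have hg : 0 < gr Q := by linarith
  have h3 := csum_ratio hQ hne hc
  have h4 := (GEN.ratio_iff Q (gr Q ^ 2)).1 (class_sum Q hQ hne hc).2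
  have h5 := h3.div h4 (by positivity)
  rw [div_self (by positivity)] at h5
  refine h5.congr' ?_
  filter_upwards [eventually_ge_atTop 2] with j hj
  simp only [Pi.div_apply]
  rw [fr_bu hQ (2 * j) (by omega), div_div_div_comm]

/-- the local statistics see the growth rate -/
theorem gr_iff {Q' : List Dir → Prop} (hQ : KClass Q) (hne : ∃ w, SAP w ∧ Q w) :
    gr Q ^ 2 = gr Q' ^ 2 ↔ ∀ ε : ℝ, 0 < ε → ∃ θ C : ℝ, 0 < θ ∧ θ < 1 ∧ ∀ n : ℕ,
      (((K Q n).filter (fun w => ε * bu w ≤ |dv (gr Q' ^ 2) w|)).card : ℝ) ≤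
        C * (θ * gr Q) ^ n := by
  obtain ⟨h1, -, h2⟩ := gr_bounds Q hQ hne
  have hg : 0 < gr Q := by linarith
  constructor
  · intro h ε hε
    rw [← h]
    obtain ⟨θ, C, h3, h4, -, h5⟩ := class_ratio_ex hQ hne ε hε
    exact ⟨θ, C, h3, h4, h5⟩
  · intro h
    by_contra hne'
    have hd : 0 < |gr Q ^ 2 - gr Q' ^ 2| := abs_pos.2 (sub_ne_zero.2 hne')
    set ε : ℝ := |gr Q ^ 2 - gr Q' ^ 2| / 2 with hε
    have hε0 : 0 < ε := by positivity
    obtain ⟨θ1, C1, h3, h4, h5, h6⟩ := class_ratio_ex hQ hne ε hε0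
    obtain ⟨θ2, C2, h7, h8, h9⟩ := h ε hε0
    have hcov : ∀ n : ℕ, (a Q n : ℝ) ≤ (C1 + |C2|) * (max θ1 θ2 * gr Q) ^ n := by
      intro n
      have hsub : K Q n ⊆ (K Q n).filter (fun w => ε * bu w ≤ |dv (gr Q ^ 2) w|) ∪
          (K Q n).filter (fun w => ε * bu w ≤ |dv (gr Q' ^ 2) w|) := by
        intro w hw
        rw [mem_union, mem_filter, mem_filter]
        by_contra hc
        push Not at hc
        have h10 := hc.1 hw
        have h11 := hc.2 hw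
        have h12 : |gr Q ^ 2 - gr Q' ^ 2| * bu w ≤ |dv (gr Q ^ 2) w| + |dv (gr Q' ^ 2) w| := by
          have hb : (0 : ℝ) ≤ bu w := Nat.cast_nonneg _
          calc |gr Q ^ 2 - gr Q' ^ 2| * bu w = |(gr Q ^ 2 - gr Q' ^ 2) * bu w| := by
                rw [abs_mul, abs_of_nonneg hb]
            _ = |dv (gr Q' ^ 2) w - dv (gr Q ^ 2) w| := by
                unfold dv
                congr 1
                ring
            _ ≤ |dv (gr Q' ^ 2) w| + |dv (gr Q ^ 2) w| := abs_sub _ _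
            _ = _ := add_comm _ _
        rw [hε] at h10 h11
        linarith
      have h10 := (card_le_card hsub).trans (card_union_le _ _)
      have h11 : (a Q n : ℝ) ≤
          (((K Q n).filter (fun w => ε * bu w ≤ |dv (gr Q ^ 2) w|)).card : ℝ) +
          (((K Q n).filter (fun w => ε * bu w ≤ |dv (gr Q' ^ 2) w|)).card : ℝ) := by
        unfold a
        exact_mod_cast h10
      calc (a Q n : ℝ) ≤ C1 * (θ1 * gr Q) ^ n + C2 * (θ2 * gr Q) ^ n :=
            h11.trans (add_le_add (h6 n) (h9 n))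
        _ ≤ C1 * (max θ1 θ2 * gr Q) ^ n + |C2| * (max θ1 θ2 * gr Q) ^ n := by
            gcongr
            · exact le_max_left _ _
            · exact le_abs_self _
            · exact le_max_right _ _
        _ = _ := by ring
    set θ : ℝ := max θ1 θ2 with hθ
    have hθ0 : 0 < θ := lt_max_of_lt_left h3
    have hθ1 : θ < 1 := max_lt h4 h8
    set b : ℝ := (1 + θ) / 2 * gr Q with hb
    have hb0 : 0 < b := by positivity
    have hbg : b < gr Q := by rw [hb]; nlinarith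
    have hfr : ∃ᶠ j : ℕ in atTop, b < (pq Q (2 * j)) ^ (1 / (2 * j : ℝ)) :=
      frequently_lt_of_lt_limsup (GEN.bdd_below Q).isCoboundedUnder_le (by unfold gr at hbg; exact hbg)
    have hev : ∀ᶠ j : ℕ in atTop, (C1 + |C2|) * (θ * gr Q) ^ (2 * j) < b ^ (2 * j) := by
      set ρ : ℝ := θ / ((1 + θ) / 2) with hρ
      have hρ0 : 0 < ρ := by positivity
      have hρ1 : ρ < 1 := by
        rw [hρ, div_lt_one (by positivity)]
        linarith
      have ht : Tendsto (fun j : ℕ => (C1 + |C2|) * (ρ ^ 2) ^ j) atTop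
          (𝓝 ((C1 + |C2|) * 0)) :=
        (tendsto_pow_atTop_nhds_zero_of_lt_one (by positivity) (by nlinarith)).const_mul _
      rw [mul_zero] at ht
      filter_upwards [ht.eventually_lt_const (show (0 : ℝ) < 1 by norm_num)] with j h10
      have h11 : (θ * gr Q) ^ (2 * j) = (ρ ^ 2) ^ j * b ^ (2 * j) := by
        rw [← pow_mul, ← mul_pow, hρ, hb]
        congr 1
        field_simp
      rw [h11]
      calc (C1 + |C2|) * ((ρ ^ 2) ^ j * b ^ (2 * j)) =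
          ((C1 + |C2|) * (ρ ^ 2) ^ j) * b ^ (2 * j) := by ring
        _ < 1 * b ^ (2 * j) := by gcongr
        _ = _ := one_mul _
    obtain ⟨j, h10, h11, h12⟩ := (hfr.and_eventually (hev.and (eventually_gt_atTop 0))).exists
    have hp : 0 ≤ pq Q (2 * j) := GEN.pn_nonneg Q _
    have hj' : (0 : ℝ) < j := by exact_mod_cast h12
    have h13 : b ^ (2 * j) ≤ pq Q (2 * j) := by
      calc b ^ (2 * j) ≤ ((pq Q (2 * j)) ^ (1 / (2 * j : ℝ))) ^ (2 * j) := by gcongr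
        _ = pq Q (2 * j) := by
            rw [← Real.rpow_natCast, ← Real.rpow_mul hp]
            push_cast
            rw [one_div_mul_cancel (by positivity), Real.rpow_one]
    have h14 := GEN.pn_le_a Q j h12
    have h15 := hcov (2 * j)
    linarith

end KB

end

end KN
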