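import Pool.Agent.R423.KB.Cell

/-!
# Balance of free plaquettes and bumps: all but exponentially few polygons
-/

set_option autoImplicit false

namespace KN

open Finset Filter Topology
open scoped Classical

noncomputable section

namespace KB

/-- a quadratic polynomial is dominated by an exponential -/
theorem poly (τ : ℝ) (hτ : 0 < τ) :
    ∃ C : ℝ, 0 < C ∧ ∀ n : ℕ, (6 * (n : ℝ) + 1) * (n + 1) ≤ C * (1 + τ) ^ n := by
  have hr : |(1 / (1 + τ))| < 1 := by
    rw [abs_of_pos (by positivity), div_lt_one (by positivity)]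
    linarith
  have h := tendsto_pow_const_mul_const_pow_of_abs_lt_one 2 hr
  obtain ⟨C, hC⟩ := h.bddAbove_range
  refine ⟨13 * |C| + 1, by positivity, fun n => ?_⟩
  have h1 : (n : ℝ) ^ 2 * (1 / (1 + τ)) ^ n ≤ |C| := (hC ⟨n, rfl⟩).trans (le_abs_self C)
  have h2 : (n : ℝ) ^ 2 ≤ |C| * (1 + τ) ^ n := by
    have h3 := mul_le_mul_of_nonneg_right h1 (pow_nonneg (by positivity : (0 : ℝ) ≤ 1 + τ) n)
    rw [mul_assoc, ← mul_pow, one_div_mul_cancel (by positivity), one_pow, mul_one] at h3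
    exact h3
  have h4 : (1 : ℝ) ≤ (1 + τ) ^ n := one_le_pow₀ (by linarith)
  have h5 : (n : ℝ) ≤ (n : ℝ) ^ 2 := by
    have : n ≤ n ^ 2 := Nat.le_self_pow (by norm_num) n
    exact_mod_cast this
  nlinarith

/-- the exceptional polygons -/
def Ex (Q : List Dir → Prop) (μ ε : ℝ) (n : ℕ) : Finset (List Dir) :=
  (K Q n).filter (fun w => ε * n ≤ |dv (μ ^ 2) w|)

theorem main (hup : S_up) (hdn : S_down) (hfive : S_five) (Q : List Dir → Prop) (hQ : Inv Q)
    (μ : ℝ) (hμ1 : 2 ≤ μ) (hμ5 : μ ≤ 5)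
    (hub : ∀ τ : ℝ, 0 < τ → ∃ C : ℝ, ∀ n : ℕ, (a Q n : ℝ) ≤ C * ((1 + τ) * μ) ^ n)
    (ε : ℝ) (hε : 0 < ε) (hε1 : ε ≤ 1) :
    ∃ C : ℝ, 0 < C ∧ ∀ n : ℕ, ((Ex Q μ ε n).card : ℝ) ≤ C * ((1 - ε ^ 2 / 20000) * μ) ^ n := by
  have hμ : 0 < μ := by linarith
  -- the choice of `τ`
  set x : ℝ := ε ^ 2 / 15300 with hx
  have hx0 : 0 < x := by positivity
  have he1 : Real.exp (-x) < 1 - ε ^ 2 / 20000 := by
    have h1 : Real.exp (-x) ≤ 1 / (1 + x) := by
      rw [Real.exp_neg, ← one_div]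
      exact one_div_le_one_div_of_le (by positivity) (by linarith [Real.add_one_le_exp x])
    refine h1.trans_lt ?_
    rw [div_lt_iff₀ (by positivity), hx]
    have h2 : 0 < ε ^ 2 := by positivity
    have h3 : ε ^ 2 ≤ 1 := by nlinarith
    nlinarith
  obtain ⟨τ, hτ, hτ1⟩ : ∃ τ : ℝ, 0 < τ ∧ (1 + τ) ^ 3 * Real.exp (-x) ≤ 1 - ε ^ 2 / 20000 := by
    have hcont : Tendsto (fun τ : ℝ => (1 + τ) ^ 3 * Real.exp (-x)) (𝓝[>] 0)
        (𝓝 ((1 + 0) ^ 3 * Real.exp (-x))) := by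
      apply Tendsto.mono_left _ nhdsWithin_le_nhds
      exact (((tendsto_const_nhds.add tendsto_id).pow 3).mul_const _)
    have h2 : ((1 : ℝ) + 0) ^ 3 * Real.exp (-x) < 1 - ε ^ 2 / 20000 := by
      simpa using he1
    have h3 := (hcont.eventually_lt_const h2).and self_mem_nhdsWithin
    obtain ⟨τ, h4, h5⟩ := h3.exists
    exact ⟨τ, h5, h4.le⟩
  obtain ⟨C0, hC0⟩ := hub τ hτ
  obtain ⟨C1, hC1, hpoly⟩ := poly τ hτ
  have hC0' : 0 ≤ C0 := by
    have := hC0 0
    simp only [pow_zero, mul_one] at this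
    exact le_trans (Nat.cast_nonneg _) this
  have hthpos : (1 : ℝ) ≤ (1 - ε ^ 2 / 20000) * μ := by
    have h3 : ε ^ 2 ≤ 1 := by nlinarith
    nlinarith
  refine ⟨6250 + 3 * C0 * C1, by positivity, fun n => ?_⟩
  by_cases hn : n < 5
  · have h1 : ((Ex Q μ ε n).card : ℝ) ≤ a Q n := by
      unfold Ex a
      exact_mod_cast card_filter_le _ _
    have h2 := hfive Q n
    have h3 : (5 : ℝ) ^ n ≤ 5 ^ 5 := pow_le_pow_right₀ (by norm_num) (by omega)
    have h4 : (1 : ℝ) ≤ ((1 - ε ^ 2 / 20000) * μ) ^ n := one_le_pow₀ hthpos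
    have h5 : (0 : ℝ) ≤ 3 * C0 * C1 := by positivity
    nlinarith
  push Not at hn
  have hn' : (5 : ℝ) ≤ n := by exact_mod_cast hn
  -- the choice of `j`
  set j : ℕ := ⌊ε * n / 306⌋₊ with hj
  have hj1 : 306 * (j : ℝ) ≤ ε * n := by
    have := Nat.floor_le (show 0 ≤ ε * n / 306 by positivity)
    rw [← hj] at this
    linarith
  have hj2 : ε * n / 306 < (j : ℝ) + 1 := Nat.lt_floor_add_one _
  have hjn : 2 * j ≤ n := by
    have : 2 * (j : ℝ) ≤ n := by nlinarith
    exact_mod_cast this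
  set q : ℝ := 1 - ε / 50 with hq
  have hq0 : 0 < q := by rw [hq]; linarith
  -- one cell
  have hcell : ∀ p ∈ range (6 * n + 1) ×ˢ range (n + 1),
      (((Ex Q μ ε n).filter (fun w => (fr w, bu w) = p)).card : ℝ) ≤
        C0 * (1 + τ) ^ (2 * n) * μ ^ n * q ^ j := by
    rintro ⟨F, β⟩ hp
    rw [mem_product, mem_range, mem_range] at hp
    obtain ⟨hF6, hβn⟩ := hp
    simp only at hF6 hβn
    set B := (Ex Q μ ε n).filter (fun w => (fr w, bu w) = (F, β)) with hB
    have hBK : B ⊆ K Q n := (filter_subset _ _).trans (filter_subset _ _)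
    have hBw : ∀ w ∈ B, fr w = F ∧ bu w = β := by
      intro w hw
      have := (mem_filter.1 hw).2
      rw [Prod.mk.injEq] at this
      exact this
    rcases B.eq_empty_or_nonempty with he | ⟨w, hw⟩
    · rw [he, card_empty]
      push_cast
      positivity
    have hdev : ε * n ≤ |(F : ℝ) - μ ^ 2 * β| := by
      have h1 := (mem_filter.1 (mem_filter.1 hw).1).2
      unfold dv at h1
      rwa [(hBw w hw).1, (hBw w hw).2] at h1
    rcases le_abs.1 hdev with h1 | h1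
    · have h2 := cell_up hup Q hQ μ ε hμ hμ5 hε n j F β (by omega) hj1 B hBK hBw (by omega)
        (by linarith)
      have h3 := hC0 (n + 2 * j)
      have hμj : 0 < (μ ^ 2) ^ j := by positivity
      have h4 : (B.card : ℝ) * (μ ^ 2) ^ j ≤
          (C0 * (1 + τ) ^ (2 * n) * μ ^ n * q ^ j) * (μ ^ 2) ^ j := by
        calc (B.card : ℝ) * (μ ^ 2) ^ j ≤ (a Q (n + 2 * j) : ℝ) * q ^ j := h2
          _ ≤ (C0 * ((1 + τ) * μ) ^ (n + 2 * j)) * q ^ j := by gcongr
          _ = C0 * (1 + τ) ^ (n + 2 * j) * μ ^ (n + 2 * j) * q ^ j := by rw [mul_pow]; ring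
          _ ≤ C0 * (1 + τ) ^ (2 * n) * μ ^ (n + 2 * j) * q ^ j := by
              gcongr
              · linarith
              · omega
          _ = _ := by rw [pow_add μ, pow_mul μ]; ring
      exact le_of_mul_le_mul_right h4 hμj
    · have h2 := cell_down hdn Q hQ μ ε hμ hμ5 hε n j F β hn hj1 B hBK hBw (by omega)
        (by linarith)
      have h3 := hC0 (n - 2 * j)
      have hμn : μ ^ (n - 2 * j) * (μ ^ 2) ^ j = μ ^ n := by
        rw [← pow_mul, ← pow_add]
        congr 1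
        omega
      calc (B.card : ℝ) ≤ (a Q (n - 2 * j) : ℝ) * (μ ^ 2) ^ j * q ^ j := h2
        _ ≤ (C0 * ((1 + τ) * μ) ^ (n - 2 * j)) * (μ ^ 2) ^ j * q ^ j := by gcongr
        _ = C0 * (1 + τ) ^ (n - 2 * j) * (μ ^ (n - 2 * j) * (μ ^ 2) ^ j) * q ^ j := by
            rw [mul_pow]; ring
        _ = C0 * (1 + τ) ^ (n - 2 * j) * μ ^ n * q ^ j := by rw [hμn]
        _ ≤ _ := by
            gcongr
            · linarith
            · omega
  -- sum over the cells
  have hsum : ((Ex Q μ ε n).card : ℝ) ≤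
      (6 * (n : ℝ) + 1) * (n + 1) * (C0 * (1 + τ) ^ (2 * n) * μ ^ n * q ^ j) := by
    have h1 : (Ex Q μ ε n).card = ∑ p ∈ range (6 * n + 1) ×ˢ range (n + 1),
        ((Ex Q μ ε n).filter (fun w => (fr w, bu w) = p)).card := by
      apply card_eq_sum_card_fiberwise
      intro w hw
      have h2 := mem_K.1 (mem_filter.1 hw).1
      have h3 := @fr_le w
      have h4 := @bu_le w
      rw [h2.1] at h3 h4
      simp only [coe_product, Set.mem_prod, mem_coe, mem_range]
      omega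
    rw [h1]
    push_cast
    refine (sum_le_sum hcell).trans ?_
    rw [sum_const, card_product, card_range, card_range, nsmul_eq_mul]
    push_cast
    exact le_rfl
  -- the power of `q`
  have hqj : q ^ j ≤ 3 * Real.exp (-x) ^ n := by
    have h1 : q ≤ Real.exp (-(ε / 50)) := by
      have := Real.add_one_le_exp (-(ε / 50))
      rw [hq]; linarith
    calc q ^ j ≤ Real.exp (-(ε / 50)) ^ j := by gcongr
      _ = Real.exp (-(ε / 50) * j) := by rw [← Real.exp_nat_mul]; congr 1; ring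
      _ ≤ Real.exp (1 + (n : ℝ) * (-x)) := by
          apply Real.exp_le_exp.2
          rw [hx]
          have h2 : ε / 50 * (ε * n / 306) ≤ ε / 50 * ((j : ℝ) + 1) := by gcongr
          nlinarith
      _ = Real.exp 1 * Real.exp (-x) ^ n := by rw [Real.exp_add, Real.exp_nat_mul]
      _ ≤ _ := by
          have := Real.exp_one_lt_d9
          gcongr
          linarith
  have hex0 : 0 < Real.exp (-x) := Real.exp_pos _
  calc ((Ex Q μ ε n).card : ℝ) ≤
      (6 * (n : ℝ) + 1) * (n + 1) * (C0 * (1 + τ) ^ (2 * n) * μ ^ n * q ^ j) := hsum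
    _ ≤ (C1 * (1 + τ) ^ n) * (C0 * (1 + τ) ^ (2 * n) * μ ^ n * (3 * Real.exp (-x) ^ n)) := by
        have := hpoly n
        gcongr
    _ = 3 * C0 * C1 * (((1 + τ) ^ 3 * Real.exp (-x)) * μ) ^ n := by
        have e1 : (1 + τ) ^ (2 * n) = ((1 + τ) ^ n) ^ 2 := by rw [← pow_mul, mul_comm]
        have e2 : ((1 + τ) ^ 3) ^ n = ((1 + τ) ^ n) ^ 3 := by
          rw [← pow_mul, ← pow_mul, mul_comm]
        rw [mul_pow, mul_pow, e1, e2]
        ring
    _ ≤ 3 * C0 * C1 * ((1 - ε ^ 2 / 20000) * μ) ^ n := by gcongr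
    _ ≤ _ := by
        have h4 : (1 : ℝ) ≤ ((1 - ε ^ 2 / 20000) * μ) ^ n := one_le_pow₀ hthpos
        nlinarith

end KB

end

end KN
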